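import Mathlib

set_option autoImplicit false
open Filter Topology MeasureTheory Finset

namespace Pool.Agent.H.MP_7fb4a2_an

abbrev Om := ℕ → ZMod 2

instance : BorelSpace (ZMod 2) := ⟨borel_eq_top_of_discrete.symm⟩

noncomputable def PP : Measure Om := Measure.addHaarMeasure ⊤

instance : IsProbabilityMeasure PP := ⟨by
  have := Measure.addHaarMeasure_self (G := Om) (K₀ := ⊤)
  simpa [PP] using this⟩

instance : PP.IsAddLeftInvariant := by unfold PP; infer_instance

def rr (l : ℕ) : ℕ := (Nat.unpair l).1 + 2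

def dd : ℕ → ℕ
  | 0 => 1
  | l + 1 => dd l * rr l * (l + 1)

lemma rr_ge (l : ℕ) : 2 ≤ rr l := by simp [rr]

lemma dd_pos (l : ℕ) : 0 < dd l := by
  induction l with
  | zero => simp [dd]
  | succ l ih => have := rr_ge l; simp only [dd]; positivity

lemma dd_two (l : ℕ) : 2 * dd l ≤ dd (l + 1) := by
  have := rr_ge l
  calc 2 * dd l = dd l * 2 * 1 := by ring
    _ ≤ dd l * rr l * (l + 1) := by gcongr; omega

lemma dd_mul (l : ℕ) : (l + 1) * dd l ≤ dd (l + 1) := by
  have := rr_ge l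
  calc (l + 1) * dd l = dd l * 1 * (l + 1) := by ring
    _ ≤ dd l * rr l * (l + 1) := by gcongr; omega

lemma dd_pow (l i : ℕ) : 2 ^ i * dd l ≤ dd (i + l) := by
  induction i with
  | zero => simp
  | succ i ih =>
    have := dd_two (i + l)
    rw [show i + 1 + l = i + l + 1 by ring, pow_succ]; nlinarith

lemma qq_ge (l : ℕ) : l + 1 ≤ rr l * dd l := by
  have := rr_ge l
  cases l with
  | zero => simp [dd]; omega
  | succ l => have := dd_mul l; have := dd_pos l; nlinarith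

lemma qq_dvd (i l : ℕ) (h : i < l) : rr i * dd i ∣ dd l := by
  induction l with
  | zero => omega
  | succ l ih =>
    rcases Nat.lt_succ_iff_lt_or_eq.1 h with h | rfl
    · exact (ih h).trans ⟨rr l * (l + 1), by simp [dd, mul_assoc]⟩
    · exact ⟨i + 1, by simp [dd, mul_comm]⟩

noncomputable def tm (l : ℕ) (ω : Om) : ℝ := ((ω l).val : ℝ) / (rr l * dd l : ℕ)

lemma val_le (z : ZMod 2) : (z.val : ℝ) ≤ 1 := by
  have := ZMod.val_lt z
  exact_mod_cast (by omega : z.val ≤ 1)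

lemma tm_nonneg (l : ℕ) (ω : Om) : 0 ≤ tm l ω := by unfold tm; positivity

lemma tm_le (i l : ℕ) (ω : Om) : tm (i + l) ω ≤ (1 / (dd l : ℝ)) / 2 / 2 ^ i := by
  have h1 := dd_pow l i
  have h2 := rr_ge (i + l)
  have h3 := dd_pos l
  have h4 : 2 * (2 ^ i * dd l) ≤ rr (i + l) * dd (i + l) := by gcongr
  have h5 : (2:ℝ) * (2 ^ i * dd l) ≤ (rr (i + l) * dd (i + l) : ℕ) := by exact_mod_cast h4
  have h6 : (0:ℝ) < dd l := by exact_mod_cast h3
  calc tm (i + l) ω ≤ 1 / (2 * (2 ^ i * dd l)) := by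
        unfold tm
        gcongr
        exact val_le _
    _ = _ := by field_simp

lemma tm_sum (ω : Om) : Summable (fun l => tm l ω) :=
  Summable.of_nonneg_of_le (fun l => tm_nonneg l ω) (fun l => tm_le l 0 ω) (summable_geometric_two' _)

noncomputable def XX (ω : Om) : ℝ := ∑' l, tm l ω

lemma tm_cont (l : ℕ) : Continuous (tm l) := by
  unfold tm
  refine Continuous.div_const ?_ _
  exact (continuous_of_discreteTopology (f := fun z : ZMod 2 => (z.val : ℝ))).comp (continuous_apply l)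

lemma XX_cont : Continuous XX :=
  continuous_tsum tm_cont (summable_geometric_two' (1 / (dd 0 : ℝ))) (fun l ω => by
    rw [Real.norm_eq_abs, abs_of_nonneg (tm_nonneg _ _)]; exact tm_le l 0 ω)

lemma XX_split (l : ℕ) (ω : Om) : ∃ s : ℝ, 0 ≤ s ∧ s ≤ 1 / (dd (l + 1) : ℝ) ∧
    XX ω = ∑ i ∈ range l, tm i ω + tm l ω + s := by
  refine ⟨∑' i, tm (i + (l + 1)) ω, tsum_nonneg (fun i => tm_nonneg _ _), ?_, ?_⟩
  · rw [← tsum_geometric_two' (1 / (dd (l + 1) : ℝ))]
    exact Summable.tsum_le_tsum (fun i => tm_le i _ ω) ((summable_nat_add_iff _).2 (tm_sum ω))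
      (summable_geometric_two' _)
  · rw [← sum_range_succ, (tm_sum ω).sum_add_tsum_nat_add]; rfl

noncomputable def ee (t : ℝ) : ℂ := Complex.exp (Complex.I * (2 * Real.pi * t : ℝ))

lemma ee_add (s t : ℝ) : ee (s + t) = ee s * ee t := by
  unfold ee; rw [← Complex.exp_add]; congr 1; push_cast; ring

lemma ee_norm (t : ℝ) : ‖ee t‖ = 1 := by
  unfold ee; rw [mul_comm]; exact Complex.norm_exp_ofReal_mul_I _

lemma ee_zero : ee 0 = 1 := by simp [ee]

lemma ee_nat (k : ℕ) : ee k = 1 := by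
  unfold ee
  rw [← Complex.exp_nat_mul_two_pi_mul_I k]; congr 1; push_cast; ring

lemma ee_cont : Continuous ee := by unfold ee; fun_prop

lemma ee_sub (s t : ℝ) : ‖ee (s + t) - ee s‖ ≤ 2 * Real.pi * |t| := by
  rw [ee_add, ← mul_sub_one, norm_mul, ee_norm, one_mul]
  refine Real.norm_exp_I_mul_ofReal_sub_one_le.trans (le_of_eq ?_)
  rw [Real.norm_eq_abs, abs_mul, abs_of_pos (by positivity)]

noncomputable def cc (n : ℤ) : ℂ := ∫ ω, ee (n * XX ω) ∂PP

lemma cint {f : Om → ℂ} (hf : Continuous f) : Integrable f PP :=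
  hf.integrable_of_hasCompactSupport (HasCompactSupport.of_compactSpace f)

lemma flip (G : Om → ℂ) (hG : Continuous G) (l : ℕ) (hl : ∀ ω, G (Pi.single l 1 + ω) = G ω) (t : ℝ) :
    ∫ ω, G ω * ee ((ω l).val * t) ∂PP = (1 + ee t) / 2 * ∫ ω, G ω ∂PP := by
  have hc : Continuous (fun ω : Om => ee ((ω l).val * t)) :=
    (continuous_of_discreteTopology (f := fun z : ZMod 2 => ee (z.val * t))).comp (continuous_apply l)
  have h1 := integral_add_left_eq_self (μ := PP) (fun ω => G ω * ee ((ω l).val * t)) (Pi.single l 1)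
  have h2 : ∫ ω, G ω * ee ((ω l).val * t) ∂PP +
      ∫ ω, G (Pi.single l 1 + ω) * ee (((Pi.single l 1 + ω : Om) l).val * t) ∂PP =
      ∫ ω, (1 + ee t) * G ω ∂PP := by
    have hc1 : Continuous (fun ω : Om => G ω * ee ((ω l).val * t)) := hG.mul hc
    have hc2 : Continuous (fun ω : Om => G (Pi.single l 1 + ω) *
        ee (((Pi.single l 1 + ω : Om) l).val * t)) := hc1.comp (continuous_const.add continuous_id)
    rw [← integral_add (cint hc1) (cint hc2)]
    congr 1
    funext ω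
    simp only [hl, Pi.add_apply, Pi.single_eq_same]
    have : ∀ z : ZMod 2, (z.val = 0 ∧ (1 + z).val = 1) ∨ (z.val = 1 ∧ (1 + z).val = 0) := by decide
    rcases this (ω l) with h | h <;> simp [h.1, h.2, ee_zero] <;> ring
  rw [integral_const_mul, h1] at h2
  linear_combination h2 / 2

noncomputable def aa (m : ℕ) : ℂ := (1 + ee (1 / (m + 2 : ℕ))) / 2

lemma cc_est (n : ℤ) (l : ℕ) :
    ‖cc (n + dd l) - aa (Nat.unpair l).1 * cc n‖ ≤ 4 * Real.pi * (2 * |(n:ℝ)| + 1) / (l + 1) := by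
  set G : Om → ℂ := fun ω => ee (n * ∑ i ∈ range l, tm i ω) with hG
  have hGc : Continuous G := ee_cont.comp (continuous_const.mul (continuous_finsetSum _ (fun i _ => tm_cont i)))
  have hc : Continuous (fun ω : Om => ee ((ω l).val * (1 / (rr l : ℝ)))) :=
    (continuous_of_discreteTopology (f := fun z : ZMod 2 => ee (z.val * (1 / (rr l : ℝ))))).comp
      (continuous_apply l)
  have hf := flip G hGc l (fun ω => by
    simp only [hG]
    congr 2
    refine sum_congr rfl (fun i hi => ?_)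
    simp [tm, Pi.single_eq_of_ne (mem_range.1 hi).ne]) (1 / (rr l : ℝ))
  have hl : (0:ℝ) < l + 1 := by positivity
  have hd : (0:ℝ) < dd l := by exact_mod_cast dd_pos l
  have hr : (0:ℝ) < rr l := by have := rr_ge l; exact_mod_cast (by omega : 0 < rr l)
  have h1 : ((l:ℝ) + 1) * dd l ≤ dd (l + 1) := by exact_mod_cast dd_mul l
  have h1' : (1:ℝ) ≤ dd l := by exact_mod_cast dd_pos l
  have h2 : ((l:ℝ) + 1) ≤ (rr l * dd l : ℕ) := by exact_mod_cast qq_ge l
  have htm : ∀ ω, tm l ω ≤ 1 / (l + 1) := fun ω => by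
    unfold tm; gcongr; exact val_le _
  have hs1 : 1 / (dd (l + 1) : ℝ) ≤ 1 / (l + 1) := by
    gcongr; nlinarith
  have hs2 : dd l * (1 / (dd (l + 1) : ℝ)) ≤ 1 / (l + 1) := by
    rw [mul_one_div, div_le_div_iff₀ (by nlinarith) hl]; linarith
  set δ := 2 * Real.pi * (2 * |(n:ℝ)| + 1) / (l + 1) with hδ
  have e1 : ∀ ω, ‖ee ((n + dd l : ℤ) * XX ω) - G ω * ee ((ω l).val * (1 / (rr l : ℝ)))‖ ≤ δ := by
    intro ω
    obtain ⟨s, s0, s1, hs⟩ := XX_split l ω
    have hk : ∃ k : ℕ, (dd l : ℝ) * ∑ i ∈ range l, tm i ω = k := by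
      refine ⟨∑ i ∈ range l, (ω i).val * (dd l / (rr i * dd i)), ?_⟩
      rw [mul_sum, Nat.cast_sum]
      refine sum_congr rfl (fun i hi => ?_)
      have : ((rr i * dd i : ℕ) : ℝ) ≠ 0 := by
        have := qq_ge i; exact_mod_cast (by omega : rr i * dd i ≠ 0)
      rw [Nat.cast_mul, Nat.cast_div (qq_dvd i l (mem_range.1 hi)) this, tm]; ring
    obtain ⟨k, hk⟩ := hk
    have h3 : ((n + dd l : ℤ) : ℝ) * XX ω = (k + (n * ∑ i ∈ range l, tm i ω + (ω l).val * (1 / (rr l : ℝ))))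
        + (n * tm l ω + n * s + dd l * s) := by
      have : (dd l : ℝ) * tm l ω = (ω l).val * (1 / (rr l : ℝ)) := by
        unfold tm; push_cast; field_simp
      rw [hs, ← hk, ← this]; push_cast; ring
    have h4 := ee_sub (k + (n * ∑ i ∈ range l, tm i ω + (ω l).val * (1 / (rr l : ℝ))))
      (n * tm l ω + n * s + dd l * s)
    rw [← h3, ee_add, ee_nat, one_mul, ee_add] at h4
    refine h4.trans ?_
    rw [hδ, mul_div_assoc]
    gcongr
    have a1 : |n * tm l ω| ≤ |(n:ℝ)| * (1 / (l + 1)) := by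
      rw [abs_mul, abs_of_nonneg (tm_nonneg _ _)]; gcongr; exact htm ω
    have a2 : |n * s| ≤ |(n:ℝ)| * (1 / (l + 1)) := by
      rw [abs_mul, abs_of_nonneg s0]; gcongr; exact s1.trans hs1
    have a3 : |dd l * s| ≤ 1 / (l + 1) := by
      rw [abs_of_nonneg (by positivity)]; exact le_trans (by gcongr) hs2
    have := abs_add_three (n * tm l ω) (n * s) (dd l * s)
    rw [div_eq_mul_one_div]; linarith
  have e2 : ∀ ω, ‖G ω - ee (n * XX ω)‖ ≤ δ := by
    intro ω
    obtain ⟨s, s0, s1, hs⟩ := XX_split l ω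
    have h4 := ee_sub (n * ∑ i ∈ range l, tm i ω) (n * tm l ω + n * s)
    rw [← mul_add, ← mul_add, ← add_assoc, ← hs, norm_sub_rev] at h4
    refine h4.trans ?_
    rw [hδ, mul_div_assoc]
    gcongr
    rw [abs_mul, abs_of_nonneg (add_nonneg (tm_nonneg _ _) s0), le_div_iff₀ hl]
    have : (tm l ω + s) * (l + 1) ≤ 2 := by
      have h5 := (le_div_iff₀ hl).1 (htm ω)
      have h6 := (le_div_iff₀ hl).1 (s1.trans hs1)
      linarith
    nlinarith [abs_nonneg (n:ℝ)]
  have ci : ∀ n : ℤ, Integrable (fun ω => ee (n * XX ω)) PP := fun n =>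
    cint (ee_cont.comp (continuous_const.mul XX_cont))
  have i1 := norm_integral_le_of_norm_le_const (μ := PP) (Eventually.of_forall e1)
  have i2 := norm_integral_le_of_norm_le_const (μ := PP) (Eventually.of_forall e2)
  have hc1 : Continuous (fun ω : Om => G ω * ee ((ω l).val * (1 / (rr l : ℝ)))) := hGc.mul hc
  rw [integral_sub (ci _) (cint hc1), hf] at i1
  rw [integral_sub (cint hGc) (ci _)] at i2
  simp only [probReal_univ, mul_one] at i1 i2
  have ha : ‖aa (Nat.unpair l).1‖ ≤ 1 := by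
    unfold aa
    rw [norm_div, Complex.norm_two, div_le_one (by norm_num)]
    refine (norm_add_le _ _).trans ?_
    rw [ee_norm]; norm_num
  have e3 : cc (n + dd l) - aa (Nat.unpair l).1 * cc n =
      (cc (n + dd l) - aa (Nat.unpair l).1 * ∫ ω, G ω ∂PP) +
        aa (Nat.unpair l).1 * (∫ ω, G ω ∂PP - cc n) := by ring
  rw [e3]
  refine (norm_add_le _ _).trans ?_
  have : ‖aa (Nat.unpair l).1 * (∫ ω, G ω ∂PP - cc n)‖ ≤ 1 * δ := by
    rw [norm_mul]; gcongr; exact i2
  have e4 : 4 * Real.pi * (2 * |(n:ℝ)| + 1) / (l + 1) = δ + 1 * δ := by rw [hδ]; ring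
  rw [e4]
  exact add_le_add i1 this

lemma cc_lim (m : ℕ) (n : ℤ) :
    Tendsto (fun j => cc (n + dd (Nat.pair m j))) atTop (𝓝 (aa m * cc n)) := by
  rw [tendsto_iff_norm_sub_tendsto_zero]
  refine squeeze_zero (fun j => norm_nonneg _) (fun j => ?_)
    (tendsto_const_div_atTop_nhds_zero_nat (4 * Real.pi * (2 * |(n:ℝ)| + 1)) |>.comp
      (tendsto_add_atTop_nat 1))
  have := cc_est n (Nat.pair m j)
  rw [Nat.unpair_pair] at this
  refine this.trans ?_
  simp only [Function.comp]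
  push_cast
  gcongr
  exact_mod_cast Nat.right_le_pair m j

lemma cc_zero : cc 0 = 1 := by simp [cc, ee_zero]

lemma cc_norm (n : ℤ) : ‖cc n‖ ≤ 1 := by
  have := norm_integral_le_of_norm_le_const (μ := PP) (f := fun ω => ee (n * XX ω)) (C := 1)
    (Eventually.of_forall (fun ω => (ee_norm _).le))
  simpa [cc] using this

lemma aa_lt (m : ℕ) : ‖aa m‖ < 1 := by
  unfold aa
  rw [norm_div, Complex.norm_two, div_lt_one (by norm_num)]
  have h := norm_add_lt_of_not_sameRay (x := (1:ℂ)) (y := ee (1 / (m + 2 : ℕ))) (by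
    intro hs
    have h1 := hs.eq_of_norm_eq (by rw [ee_norm, norm_one])
    unfold ee at h1
    obtain ⟨k, hk⟩ := Complex.exp_eq_one_iff.1 h1.symm
    have h2 : 2 * Real.pi * (1 / ((m + 2 : ℕ) : ℝ)) = k * (2 * Real.pi) := by
      have : ((2 * Real.pi * (1 / ((m + 2 : ℕ) : ℝ)) : ℝ) : ℂ) = ((k * (2 * Real.pi) : ℝ) : ℂ) := by
        refine mul_left_cancel₀ Complex.I_ne_zero (hk.trans ?_)
        push_cast; ring
      exact_mod_cast this
    have hp := Real.pi_pos
    have h3 : ((m:ℝ) + 2)⁻¹ = k := by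
      have : ((m:ℝ) + 2)⁻¹ * (2 * Real.pi) = k * (2 * Real.pi) := by
        rw [← h2]; push_cast; ring
      exact mul_right_cancel₀ (by positivity) this
    have h4 : (0:ℝ) < k := by rw [← h3]; positivity
    have h5 : (k:ℝ) < 1 := by rw [← h3]; exact inv_lt_one_of_one_lt₀ (by linarith [(Nat.cast_nonneg m : (0:ℝ) ≤ m)])
    have : 0 < k := by exact_mod_cast h4
    have : k < 1 := by exact_mod_cast h5
    omega)
  rw [ee_norm, norm_one] at h
  linarith

lemma aa_lim : Tendsto aa atTop (𝓝 1) := by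
  have h1 : Tendsto (fun m : ℕ => (1:ℝ) / (m + 2 : ℕ)) atTop (𝓝 0) :=
    (tendsto_const_div_atTop_nhds_zero_nat 1).comp (tendsto_add_atTop_nat 2)
  have h2 := (((ee_cont.tendsto 0).comp h1).const_add 1).div_const 2
  rw [ee_zero, add_self_div_two] at h2
  exact h2

end Pool.Agent.H.MP_7fb4a2_an
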