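import Mathlib

set_option autoImplicit false
open Filter Topology

namespace Pool.Agent.H.MP_7fb4a2_an

variable {𝕜 : Type*} [RCLike 𝕜] {H : Type*} [NormedAddCommGroup H] [InnerProductSpace 𝕜 H]

structure Rep (V : ℤ → H →L[𝕜] H) : Prop where
  add : ∀ m n x, V (m + n) x = V m (V n x)
  adj : ∀ n x y, inner 𝕜 (V n x) y = inner 𝕜 x (V (-n) y)
  norm : ∀ n x, ‖V n x‖ ≤ ‖x‖

def IsLim (V : ℤ → H →L[𝕜] H) (u : Ultrafilter ℕ) (d : ℕ → ℤ) (T : H →L[𝕜] H) : Prop :=
  ∀ x y, Tendsto (fun j => inner 𝕜 x (V (d j) y)) u (𝓝 (inner 𝕜 x (T y)))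

lemma rep_zpow (U : H ≃ₗᵢ[𝕜] H) :
    Rep (fun n : ℤ => ((U ^ n).toContinuousLinearEquiv : H →L[𝕜] H)) := by
  refine ⟨fun m n x => by simp [zpow_add], fun n x y => ?_, fun n x => by simp⟩
  have : y = (U ^ n) ((U ^ (-n)) y) := by
    change y = (U ^ n * U ^ (-n)) y
    rw [← zpow_add]; simp
  conv_lhs => rw [this]
  simp only [ContinuousLinearEquiv.coe_coe, LinearIsometryEquiv.coe_toContinuousLinearEquiv]
  exact LinearIsometryEquiv.inner_map_map _ _ _

variable [CompleteSpace H] {V : ℤ → H →L[𝕜] H}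

lemma Rep.exLim (h : Rep V) (u : Ultrafilter ℕ) (d : ℕ → ℤ) : ∃ T, IsLim V u d T := by
  have bd : ∀ y x j, ‖inner 𝕜 (V (d j) y) x‖ ≤ ‖y‖ * ‖x‖ := fun y x j =>
    (norm_inner_le_norm _ _).trans (by gcongr; exact h.norm _ _)
  have ex : ∀ y x : H, ∃ l : 𝕜, Tendsto (fun j => inner 𝕜 (V (d j) y) x) u (𝓝 l) := by
    intro y x
    obtain ⟨l, -, hl⟩ := (isCompact_closedBall (0:𝕜) (‖y‖ * ‖x‖)).ultrafilter_le_nhds
      (u.map (fun j => inner 𝕜 (V (d j) y) x))
      (by
        rw [le_principal_iff]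
        exact mem_map.2 (univ_mem' (fun j => by simpa using bd y x j)))
    exact ⟨l, hl⟩
  choose L hL using ex
  let B : H →ₛₗ[starRingEnd 𝕜] H →ₗ[𝕜] 𝕜 := LinearMap.mk₂'ₛₗ (starRingEnd 𝕜) (RingHom.id 𝕜) L
    (fun y y' x => tendsto_nhds_unique (hL _ _) (by
      simpa [inner_add_left] using (hL y x).add (hL y' x)))
    (fun c y x => tendsto_nhds_unique (hL _ _) (by
      simpa [inner_smul_left] using (hL y x).const_mul (starRingEnd 𝕜 c)))
    (fun y x x' => tendsto_nhds_unique (hL _ _) (by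
      simpa [inner_add_right] using (hL y x).add (hL y x')))
    (fun c y x => tendsto_nhds_unique (hL _ _) (by
      simpa [inner_smul_right] using (hL y x).const_mul c))
  have hB : ∀ y x, ‖B y x‖ ≤ 1 * ‖y‖ * ‖x‖ := fun y x => by
    rw [one_mul]
    exact le_of_tendsto' (hL y x).norm (fun j => bd y x j)
  refine ⟨InnerProductSpace.continuousLinearMapOfBilin (B.mkContinuous₂ 1 hB), fun x y => ?_⟩
  rw [← inner_conj_symm x, InnerProductSpace.continuousLinearMapOfBilin_apply]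
  have := (RCLike.continuous_conj.tendsto _).comp (hL y x)
  simpa [Function.comp_def, B] using this

variable {u : Ultrafilter ℕ} {d d' : ℕ → ℤ} {T T' : H →L[𝕜] H}

omit [CompleteSpace H] in
lemma IsLim.comm (h : Rep V) (hT : IsLim V u d T) (n : ℤ) (y : H) : T (V n y) = V n (T y) := by
  refine ext_inner_left 𝕜 (fun x => tendsto_nhds_unique (hT x _) ?_)
  have e : ∀ z, inner 𝕜 x (V n z) = inner 𝕜 (V (-n) x) z := fun z => by rw [h.adj, neg_neg]
  rw [e]
  refine (hT _ _).congr (fun j => ?_)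
  rw [← e, ← h.add, ← h.add, add_comm]

lemma IsLim.adj (h : Rep V) (hT : IsLim V u d T) :
    IsLim V u (fun j => -d j) (ContinuousLinearMap.adjoint T) := by
  intro x y
  rw [ContinuousLinearMap.adjoint_inner_right, ← inner_conj_symm]
  have := (RCLike.continuous_conj.tendsto _).comp (hT y x)
  refine this.congr (fun j => ?_)
  simp only [Function.comp, inner_conj_symm, h.adj]

lemma IsLim.comm2 (h : Rep V) (hT : IsLim V u d T) (hT' : IsLim V u d' T') (y : H) :
    T (T' y) = T' (T y) := by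
  refine ext_inner_left 𝕜 (fun x => tendsto_nhds_unique (hT x _) ?_)
  rw [← ContinuousLinearMap.adjoint_inner_left]
  refine (hT _ _).congr (fun j => ?_)
  rw [ContinuousLinearMap.adjoint_inner_left, hT'.comm h]

omit [CompleteSpace H] in
lemma IsLim.norm (h : Rep V) (hT : IsLim V u d T) (y : H) : ‖T y‖ ≤ ‖y‖ := by
  have h1 : ‖inner 𝕜 (T y) (T y)‖ ≤ ‖T y‖ * ‖y‖ :=
    le_of_tendsto' (hT _ _).norm (fun j => (norm_inner_le_norm _ _).trans (by gcongr; exact h.norm _ _))
  rw [inner_self_eq_norm_sq_to_K] at h1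
  simp only [norm_pow, norm_algebraMap', norm_norm] at h1
  by_contra hh
  push Not at hh
  nlinarith [norm_nonneg y]

lemma IsLim.nil (h : Rep V) (hT : IsLim V u d T) (m : ℕ) : ∀ x, (T ^ m) x = 0 → T x = 0 := by
  induction m with
  | zero => intro x hx; simp at hx; simp [hx]
  | succ m ih =>
    intro x hx
    rw [pow_succ, mul_apply_eq_comp] at hx
    have h1 := ih _ hx
    have h2 : ContinuousLinearMap.adjoint T (T x) = 0 := by
      rw [← inner_self_eq_zero (𝕜 := 𝕜), ContinuousLinearMap.adjoint_inner_left,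
        hT.comm2 h (hT.adj h), h1]
      simp
    rw [← inner_self_eq_zero (𝕜 := 𝕜), ← ContinuousLinearMap.adjoint_inner_left, h2]
    simp

lemma core (h : Rep V) (v w : H) (d : ℕ → ℤ) (φ : ℕ → ℤ → 𝕜)
    (h0 : ∀ n, φ 0 n = inner 𝕜 w (V n v))
    (hs : ∀ k n, Tendsto (fun j => φ k (n + d j)) atTop (𝓝 (φ (k + 1) n)))
    (m : ℕ) (hm : ∀ n, φ m (n + 1) = φ m n) (n : ℤ) : φ 1 (n + 1) = φ 1 n := by
  obtain ⟨T, hT⟩ := h.exLim (hyperfilter ℕ) d
  have hu : (hyperfilter ℕ : Filter ℕ) ≤ atTop := by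
    rw [← Nat.cofinite_eq_atTop]; exact hyperfilter_le_cofinite
  have e : ∀ n x z, inner 𝕜 x (V n z) = inner 𝕜 (V (-n) x) z := fun n x z => by rw [h.adj, neg_neg]
  have hφ : ∀ k n, φ k n = inner 𝕜 w (V n ((T ^ k) v)) := by
    intro k
    induction k with
    | zero => simpa using h0
    | succ k ih =>
      intro n
      refine tendsto_nhds_unique ((hs k n).mono_left hu) ?_
      rw [pow_succ', mul_apply_eq_comp, e]
      refine (hT _ _).congr (fun j => ?_)
      rw [ih, h.add, e n]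
  set K : Submodule 𝕜 H := Submodule.span 𝕜 (Set.range (fun n : ℤ => V n w)) with hK
  have memK : ∀ x, x ∈ Kᗮ ↔ ∀ n : ℤ, inner 𝕜 w (V n x) = 0 := by
    intro x
    rw [Submodule.mem_orthogonal]
    constructor
    · intro hx n
      rw [e]; exact hx _ (Submodule.subset_span ⟨_, rfl⟩)
    · intro hx y hy
      induction hy using Submodule.span_induction with
      | mem y hy => obtain ⟨n, rfl⟩ := hy; rw [h.adj]; exact hx _
      | zero => simp
      | add a b _ _ ha hb => rw [inner_add_left, ha, hb, add_zero]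
      | smul c a _ ha => rw [inner_smul_left, ha, mul_zero]
  have inv : ∀ (d : ℕ → ℤ) (T : H →L[𝕜] H), IsLim V (hyperfilter ℕ) d T → ∀ x ∈ Kᗮ, T x ∈ Kᗮ := by
    intro d T hT x hx
    rw [memK] at hx ⊢
    intro n
    rw [← hT.comm h]
    refine tendsto_nhds_unique (hT _ _) ?_
    simp only [← h.add, hx]
    exact tendsto_const_nhds
  have inv2 : ∀ x ∈ Kᗮᗮ, T x ∈ Kᗮᗮ := by
    intro x hx
    rw [Submodule.mem_orthogonal] at hx ⊢
    intro y hy
    rw [← ContinuousLinearMap.adjoint_inner_left]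
    exact hx _ (inv _ _ (hT.adj h) y hy)
  have invp : ∀ (L : Submodule 𝕜 H), (∀ x ∈ L, T x ∈ L) → ∀ k, ∀ x ∈ L, (T ^ k) x ∈ L := by
    intro L hL k
    induction k with
    | zero => intro x hx; simpa using hx
    | succ k ih => intro x hx; rw [pow_succ', mul_apply_eq_comp]; exact hL _ (ih x hx)
  have cp : ∀ k x, (T ^ k) (V 1 x) = V 1 ((T ^ k) x) := by
    intro k
    induction k with
    | zero => simp
    | succ k ih => intro x; simp only [pow_succ', mul_apply_eq_comp, ih, hT.comm h]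
  have key : ∀ k, (T ^ k) (V 1 v - v) ∈ Kᗮ ↔ ∀ n, φ k (n + 1) = φ k n := by
    intro k
    rw [memK]
    refine forall_congr' (fun n => ?_)
    rw [map_sub, map_sub, inner_sub_right, sub_eq_zero, cp, ← h.add, hφ, hφ]
  obtain ⟨a, ha, b, hb, hab⟩ := Kᗮ.exists_add_mem_mem_orthogonal (V 1 v - v)
  have h1 := (key m).2 hm
  rw [hab, map_add] at h1
  have h2 : (T ^ m) b ∈ Kᗮ := by
    have := Submodule.sub_mem _ h1 (invp _ (inv _ _ hT) m a ha)
    simpa using this
  have h3 : (T ^ m) b = 0 := by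
    rw [← inner_self_eq_zero (𝕜 := 𝕜)]
    exact (Submodule.mem_orthogonal _ _).1 (invp _ inv2 m b hb) _ h2
  refine (key 1).1 ?_ n
  rw [hab, pow_one, map_add, hT.nil h m b h3, add_zero]
  exact inv _ _ hT a ha

end Pool.Agent.H.MP_7fb4a2_an
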