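import Pool.Agent.H.MP_7fb4a2_an.A
import Pool.Agent.H.MP_7fb4a2_an.B

set_option autoImplicit false
open Filter Topology MeasureTheory

namespace Pool.Agent.H.MP_7fb4a2_an

section mult
variable (μ : Measure UnitAddCircle)

lemma four_norm (n : ℤ) (x : UnitAddCircle) : ‖fourier n x‖ = 1 := by
  rw [fourier_apply]; exact Circle.norm_coe _

lemma mem_mul (n : ℤ) (f : Lp ℂ 2 μ) : MemLp (fun x => fourier n x * f x) 2 μ :=
  (Lp.memLp f).of_le ((fourier n).continuous.aestronglyMeasurable.mul (Lp.aestronglyMeasurable f))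
    (Eventually.of_forall (fun x => by rw [norm_mul, four_norm, one_mul]))

noncomputable def MM (n : ℤ) (f : Lp ℂ 2 μ) : Lp ℂ 2 μ := (mem_mul μ n f).toLp _

lemma MM_coe (n : ℤ) (f : Lp ℂ 2 μ) : MM μ n f =ᵐ[μ] fun x => fourier n x * f x :=
  MemLp.coeFn_toLp _

lemma MM_add (m n : ℤ) (f : Lp ℂ 2 μ) : MM μ (m + n) f = MM μ m (MM μ n f) := by
  refine Lp.ext ?_
  filter_upwards [MM_coe μ (m + n) f, MM_coe μ m (MM μ n f), MM_coe μ n f] with x h1 h2 h3
  rw [h1, h2, h3, fourier_add, mul_assoc]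

lemma MM_zero (f : Lp ℂ 2 μ) : MM μ 0 f = f := by
  refine Lp.ext ?_
  filter_upwards [MM_coe μ 0 f] with x h1
  rw [h1, fourier_zero, one_mul]

noncomputable def UU : Lp ℂ 2 μ ≃ₗᵢ[ℂ] Lp ℂ 2 μ where
  toFun := MM μ 1
  invFun := MM μ (-1)
  map_add' f g := by
    refine Lp.ext ?_
    filter_upwards [MM_coe μ 1 (f + g), MM_coe μ 1 f, MM_coe μ 1 g, Lp.coeFn_add f g,
      Lp.coeFn_add (MM μ 1 f) (MM μ 1 g)] with x h1 h2 h3 h4 h5
    rw [h1, h5, h4, Pi.add_apply, Pi.add_apply, h2, h3, mul_add]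
  map_smul' c f := by
    refine Lp.ext ?_
    filter_upwards [MM_coe μ 1 (c • f), MM_coe μ 1 f, Lp.coeFn_smul c f,
      Lp.coeFn_smul c (MM μ 1 f)] with x h1 h2 h4 h5
    rw [RingHom.id_apply, h1, h5, h4, Pi.smul_apply, Pi.smul_apply, h2, smul_eq_mul, smul_eq_mul]
    ring
  left_inv f := by rw [← MM_add]; simpa using MM_zero μ f
  right_inv f := by rw [← MM_add]; simpa using MM_zero μ f
  norm_map' f := by
    change ‖MM μ 1 f‖ = ‖f‖
    rw [Lp.norm_def, Lp.norm_def]
    congr 1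
    refine eLpNorm_congr_norm_ae ?_
    filter_upwards [MM_coe μ 1 f] with x h1
    rw [h1, norm_mul, four_norm, one_mul]

lemma UU_zpow (n : ℤ) (f : Lp ℂ 2 μ) : (UU μ ^ n) f = MM μ n f := by
  induction n using Int.induction_on generalizing f with
  | zero => simp [MM_zero]
  | succ n ih => rw [zpow_add_one, MM_add, ← ih]; rfl
  | pred n ih => rw [zpow_sub_one, sub_eq_add_neg, MM_add, ← ih]; rfl

variable [IsFiniteMeasure μ]

noncomputable def xi : Lp ℂ 2 μ := (memLp_const (1:ℂ)).toLp _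

lemma xi_inner (n : ℤ) : inner ℂ (xi μ) ((UU μ ^ n) (xi μ)) = ∫ t, fourier n t ∂μ := by
  rw [UU_zpow, L2.inner_def]
  refine integral_congr_ae ?_
  have h : xi μ =ᵐ[μ] fun _ => (1:ℂ) := MemLp.coeFn_toLp _
  filter_upwards [MM_coe μ n (xi μ), h] with x h1 h2
  rw [h1, h2]; simp

end mult

def PS : Set (ℤ → ℂ) :=
  {g | ∃ μ : Measure UnitAddCircle, IsFiniteMeasure μ ∧ ∀ n, g n = ∫ t, fourier n t ∂μ}

lemma fint (μ : Measure UnitAddCircle) [IsFiniteMeasure μ] {f : UnitAddCircle → ℂ}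
    (hf : Continuous f) : Integrable f μ :=
  hf.integrable_of_hasCompactSupport (HasCompactSupport.of_compactSpace f)

lemma PS_one : (1 : ℤ → ℂ) ∈ PS :=
  ⟨Measure.dirac 0, inferInstance, fun n => by simp⟩

lemma PS_mul {g h : ℤ → ℂ} (hg : g ∈ PS) (hh : h ∈ PS) : g * h ∈ PS := by
  obtain ⟨μ, _, hμ⟩ := hg
  obtain ⟨ν, _, hν⟩ := hh
  refine ⟨μ ∗ ν, inferInstance, fun n => ?_⟩
  rw [integral_conv (fint _ (fourier n).continuous), Pi.mul_apply, hμ, hν, ← integral_mul_const]
  congr 1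
  funext x
  rw [← integral_const_mul]
  congr 1
  funext y
  simp only [fourier_apply, smul_add, AddCircle.toCircle_add, Circle.coe_mul]

lemma PS_star {g : ℤ → ℂ} (hg : g ∈ PS) : star g ∈ PS := by
  obtain ⟨μ, _, hμ⟩ := hg
  refine ⟨μ.map (fun x => -x), inferInstance, fun n => ?_⟩
  rw [integral_map (by fun_prop) (fourier n).continuous.aestronglyMeasurable, Pi.star_apply, hμ,
    RCLike.star_def, ← integral_conj]
  congr 1
  funext x
  rw [← fourier_neg, fourier_apply, fourier_apply, neg_smul, smul_neg]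

lemma PS_dens (μ : Measure UnitAddCircle) [IsFiniteMeasure μ] (h : UnitAddCircle → ℝ)
    (hc : Continuous h) (h0 : ∀ x, 0 ≤ h x) :
    (fun n : ℤ => ∫ t, (h t : ℂ) * fourier n t ∂μ) ∈ PS := by
  have hi : Integrable h μ := hc.integrable_of_hasCompactSupport (HasCompactSupport.of_compactSpace h)
  refine ⟨μ.withDensity (fun x => ENNReal.ofReal (h x)),
    isFiniteMeasure_withDensity_ofReal hi.hasFiniteIntegral, fun n => ?_⟩
  rw [integral_withDensity_eq_integral_toReal_smul (by fun_prop) (by simp)]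
  beta_reduce
  congr 1
  funext x
  rw [ENNReal.toReal_ofReal (h0 x), Complex.real_smul]

lemma span_mul {g h : ℤ → ℂ} (hg : g ∈ Submodule.span ℂ PS) (hh : h ∈ Submodule.span ℂ PS) :
    g * h ∈ Submodule.span ℂ PS := by
  have := Submodule.mul_mem_mul hg hh
  rw [Submodule.span_mul_span] at this
  refine Submodule.span_mono ?_ this
  rintro _ ⟨a, ha, b, hb, rfl⟩
  exact PS_mul ha hb

lemma span_star {g : ℤ → ℂ} (hg : g ∈ Submodule.span ℂ PS) : star g ∈ Submodule.span ℂ PS := by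
  induction hg using Submodule.span_induction with
  | mem y hy => exact Submodule.subset_span (PS_star hy)
  | zero => simp
  | add a b _ _ ha hb => rw [star_add]; exact Submodule.add_mem _ ha hb
  | smul c a _ ha => rw [star_smul]; exact Submodule.smul_mem _ _ ha

lemma span_shift {g : ℤ → ℂ} (hg : g ∈ PS) (m : ℤ) : (fun n => g (m + n)) ∈ Submodule.span ℂ PS := by
  have hg' := hg
  obtain ⟨μ, _, hμ⟩ := hg
  have c1 : Continuous (fun t : UnitAddCircle => 1 + (fourier m t).re) := by fun_prop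
  have c2 : Continuous (fun t : UnitAddCircle => 1 + (fourier m t).im) := by fun_prop
  have h1 := PS_dens μ _ c1 (fun x => by
    have := (Complex.abs_re_le_norm (fourier m x)).trans (four_norm m x).le
    linarith [(abs_le.1 this).1])
  have h2 := PS_dens μ _ c2 (fun x => by
    have := (Complex.abs_im_le_norm (fourier m x)).trans (four_norm m x).le
    linarith [(abs_le.1 this).1])
  have := Submodule.sub_mem _ (Submodule.add_mem _ (Submodule.subset_span (R := ℂ) h1)
    (Submodule.smul_mem _ Complex.I (Submodule.subset_span h2)))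
    (Submodule.smul_mem _ (1 + Complex.I) (Submodule.subset_span hg'))
  convert this using 1
  funext n
  simp only [Pi.sub_apply, Pi.add_apply, Pi.smul_apply, smul_eq_mul, hμ]
  have cf := (fourier n : C(UnitAddCircle, ℂ)).continuous
  rw [← integral_const_mul, ← integral_const_mul, ← integral_add (fint _ (by fun_prop)) (fint _ (by fun_prop)),
    ← integral_sub (fint _ (by fun_prop)) (fint _ (by fun_prop))]
  congr 1
  funext x
  rw [fourier_add]
  have := Complex.re_add_im (fourier m x)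
  push_cast
  linear_combination (-(fourier n x)) * this

def MC (g : ℤ → ℂ) : Prop :=
  ∃ (H : Type) (_ : NormedAddCommGroup H) (_ : InnerProductSpace ℂ H) (_ : CompleteSpace H)
    (V : ℤ → H →L[ℂ] H) (v w : H), Rep V ∧ ∀ n, g n = inner ℂ w (V n v)

lemma MC_PS {g : ℤ → ℂ} (hg : g ∈ PS) : MC g := by
  obtain ⟨μ, _, hμ⟩ := hg
  exact ⟨Lp ℂ 2 μ, _, _, inferInstance, _, xi μ, xi μ, rep_zpow (UU μ), fun n => by
    rw [hμ, ← xi_inner]; rfl⟩

lemma MC_span {g : ℤ → ℂ} (hg : g ∈ Submodule.span ℂ PS) : MC g := by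
  have hs : ∀ (c : ℂ) (g : ℤ → ℂ), MC g → MC (c • g) := by
    rintro c g ⟨H, _, _, _, V, v, w, h, hg⟩
    exact ⟨H, _, _, inferInstance, V, c • v, w, h, fun n => by simp [hg]⟩
  induction hg using Submodule.span_induction with
  | mem y hy => exact MC_PS hy
  | zero => simpa using hs 0 _ (MC_PS PS_one)
  | smul c a _ ha => exact hs c a ha
  | add a b _ _ ha hb =>
    obtain ⟨H, _, _, _, V, v, w, h, hg⟩ := ha
    obtain ⟨H', _, _, _, V', v', w', h', hg'⟩ := hb
    let e := WithLp.prodContinuousLinearEquiv 2 ℂ H H'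
    refine ⟨WithLp 2 (H × H'), _, _, inferInstance,
      fun n => (e.symm : H × H' →L[ℂ] _) ∘L ((V n).prodMap (V' n)) ∘L (e : _ →L[ℂ] H × H'),
      WithLp.toLp 2 (v, v'), WithLp.toLp 2 (w, w'), ⟨fun m n x => ?_, fun n x y => ?_, fun n x => ?_⟩,
      fun n => ?_⟩
    · simp [e, h.add, h'.add, Prod.map]
    · simp [e, h.adj, h'.adj]
    · refine (abs_le_of_sq_le_sq' ?_ (norm_nonneg _)).2
      rw [WithLp.prod_norm_sq_eq_of_L2, WithLp.prod_norm_sq_eq_of_L2]
      have h1 := h.norm n x.fst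
      have h2 := h'.norm n x.snd
      exact add_le_add (pow_le_pow_left₀ (norm_nonneg _) h1 2) (pow_le_pow_left₀ (norm_nonneg _) h2 2)
    · simp [e, hg, hg']

noncomputable def mu0 : Measure UnitAddCircle := PP.map (fun ω => (XX ω : UnitAddCircle))

lemma XX_meas : Measurable (fun ω => (XX ω : UnitAddCircle)) :=
  ((AddCircle.continuous_mk' 1).comp XX_cont).measurable

instance : IsProbabilityMeasure mu0 := Measure.isProbabilityMeasure_map XX_meas.aemeasurable

lemma cc_eq (n : ℤ) : cc n = ∫ t, fourier n t ∂mu0 := by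
  rw [mu0, integral_map XX_meas.aemeasurable (fourier n).continuous.aestronglyMeasurable, cc]
  congr 1
  funext ω
  rw [fourier_coe_apply, ee]
  congr 1
  push_cast; ring

lemma cc_PS : cc ∈ PS := ⟨mu0, inferInstance, cc_eq⟩

end Pool.Agent.H.MP_7fb4a2_an
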