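import Pool.Agent.H.MP_7fb4a2_an.C

set_option autoImplicit false
open Filter Topology MeasureTheory

namespace Pool.Agent.H.MP_7fb4a2_an

section shift
variable {E : Type} [TopologicalSpace E]

def sh : (ℤ → E) ≃ₜ (ℤ → E) where
  toFun g m := g (m + 1)
  invFun g m := g (m - 1)
  left_inv g := by funext m; simp
  right_inv g := by funext m; simp
  continuous_toFun := by fun_prop
  continuous_invFun := by fun_prop

def Xf (f : ℤ → E) : Set (ℤ → E) := closure {g | ∃ n : ℤ, g = fun m => f (m + n)}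

lemma orb_mem (f : ℤ → E) (n : ℤ) : (fun m => f (m + n)) ∈ Xf f := subset_closure ⟨n, rfl⟩

lemma sh_mem (f g : ℤ → E) : g ∈ Xf f ↔ sh g ∈ Xf f := by
  rw [← Set.mem_preimage, Xf, sh.preimage_closure]
  have : (sh : (ℤ → E) ≃ₜ (ℤ → E)) ⁻¹' {g | ∃ n : ℤ, g = fun m => f (m + n)} =
      {g | ∃ n : ℤ, g = fun m => f (m + n)} := by
    ext g
    constructor
    · rintro ⟨n, hn⟩
      refine ⟨n - 1, funext (fun m => ?_)⟩
      have := congrFun hn (m - 1)
      simp only [sh, Homeomorph.homeomorph_mk_coe, Equiv.coe_fn_mk, sub_add_cancel] at this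
      rw [this]; congr 1; ring
    · rintro ⟨n, rfl⟩
      exact ⟨n + 1, funext (fun m => by
        simp only [sh, Homeomorph.homeomorph_mk_coe, Equiv.coe_fn_mk]; congr 1; ring)⟩
  rw [this]

def TT (f : ℤ → E) : Xf f ≃ₜ Xf f := sh.subtype (sh_mem f)

lemma TT_apply (f : ℤ → E) (y : Xf f) (m : ℤ) : (TT f y).1 m = y.1 (m + 1) := rfl

lemma TT_zpow (f : ℤ → E) (n : ℤ) (y : Xf f) (m : ℤ) : ((TT f ^ n) y).1 m = y.1 (m + n) := by
  induction n using Int.induction_on generalizing y m with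
  | zero => simp
  | succ n ih => rw [zpow_add_one, Homeomorph.mul_apply, ih, TT_apply, add_assoc]
  | pred n ih =>
    rw [zpow_sub_one, Homeomorph.mul_apply, ih]
    change y.1 (m + -n - 1) = _
    rw [add_sub_assoc]

def x0 (f : ℤ → E) : Xf f := ⟨f, by simpa using orb_mem f 0⟩

lemma dense_orb (f : ℤ → E) : DenseRange (fun n : ℤ => (TT f ^ n) (x0 f)) := by
  intro y
  rw [closure_subtype]
  refine closure_mono ?_ y.2
  rintro g ⟨n, rfl⟩
  exact ⟨_, ⟨n, rfl⟩, funext (fun m => TT_zpow f n _ m)⟩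

end shift

lemma Xf_compact {E : Type} [NormedAddCommGroup E] [ProperSpace E] (f : ℤ → E) (hf : ∀ n, ‖f n‖ ≤ 1) :
    CompactSpace (Xf f) := by
  refine isCompact_iff_compactSpace.1 ?_
  have h := isCompact_univ_pi (fun _ : ℤ => isCompact_closedBall (0:E) 1)
  refine h.of_isClosed_subset isClosed_closure (closure_minimal ?_ h.isClosed)
  rintro g ⟨n, rfl⟩ m -
  simpa using hf _

noncomputable def psi (z : ℂ) : ℝ := max (z.re - 1 / 2) 0

lemma psi_cont : Continuous psi := by unfold psi; fun_prop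

lemma psi_zero {z : ℂ} (hz : ‖z‖ ≤ 1 / 2) : psi z = 0 :=
  max_eq_right (by linarith [Complex.re_le_norm z])

noncomputable def ff (n : ℤ) : ℝ := psi (cc n)

instance : CompactSpace (Xf ff) := Xf_compact ff (fun n => by
  have h1 := (Complex.re_le_norm _).trans (cc_norm n)
  rw [Real.norm_eq_abs, ff, psi, abs_of_nonneg (le_max_right _ _)]
  exact max_le (by linarith) zero_le_one)

instance : CompactSpace (Xf cc) := Xf_compact cc cc_norm

lemma yy_lim (b : ℂ) (m : ℕ) (n : ℤ) :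
    Tendsto (fun j => (fun i => psi (b * cc (i + (n + dd (Nat.pair m j)))) : ℤ → ℝ)) atTop
      (𝓝 (fun i => psi (b * aa m * cc (i + n)))) := by
  refine tendsto_pi_nhds.2 (fun i => (psi_cont.tendsto _).comp ?_)
  simpa [mul_assoc, add_assoc] using (cc_lim m (i + n)).const_mul b

lemma yy_mem (m k : ℕ) (n : ℤ) : (fun i => psi (aa m ^ k * cc (i + n))) ∈ Xf ff := by
  induction k generalizing n with
  | zero => simpa [ff] using orb_mem ff n
  | succ k ih =>
    rw [pow_succ]
    exact isClosed_closure.mem_of_tendsto (yy_lim _ m n) (Eventually.of_forall (fun j => ih _))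

noncomputable def yy (m k : ℕ) (n : ℤ) : Xf ff := ⟨_, yy_mem m k n⟩

lemma yy_zero (m : ℕ) (n : ℤ) : yy m 0 n = (TT ff ^ n) (x0 ff) :=
  Subtype.ext (funext (fun i => by rw [TT_zpow]; simp [yy, x0, ff]))

lemma yy_zpow (m k : ℕ) (n i : ℤ) : (TT ff ^ i) (yy m k n) = yy m k (n + i) :=
  Subtype.ext (funext (fun l => by rw [TT_zpow]; simp only [yy]; congr 3; ring))

lemma yy_tend (m k : ℕ) (n : ℤ) :
    Tendsto (fun j => yy m k (n + dd (Nat.pair m j))) atTop (𝓝 (yy m (k + 1) n)) := by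
  rw [tendsto_subtype_rng]
  simpa [yy, pow_succ] using yy_lim (aa m ^ k) m n

lemma yy_nil (m : ℕ) : ∃ k, ∀ n, (yy m k n).1 = 0 := by
  obtain ⟨k, hk⟩ := exists_pow_lt_of_lt_one (by norm_num : (0:ℝ) < 1 / 2) (aa_lt m)
  refine ⟨k, fun n => funext (fun i => psi_zero ?_)⟩
  rw [norm_mul, norm_pow]
  exact (mul_le_of_le_one_right (by positivity) (cc_norm _)).trans hk.le

lemma yy_tend1 (n : ℤ) : Tendsto (fun m => yy m 1 n) atTop (𝓝 ((TT ff ^ n) (x0 ff))) := by
  rw [tendsto_subtype_rng]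
  refine tendsto_pi_nhds.2 (fun i => ?_)
  rw [TT_zpow]
  refine (psi_cont.tendsto _).comp ?_
  simpa using aa_lim.mul_const (cc (i + n))

lemma yy_ne (m : ℕ) : yy m 1 0 ≠ x0 ff := by
  intro h
  have h1 := congrFun (congrArg Subtype.val h) 0
  simp only [yy, x0, ff, add_zero, cc_zero, pow_one, mul_one, psi, Complex.one_re] at h1
  have h2 := (Complex.re_le_norm _).trans_lt (aa_lt m)
  have h3 : max ((aa m).re - 1 / 2) 0 < 1 - 1 / 2 := max_lt (by linarith) (by norm_num)
  rw [h1] at h3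
  exact absurd (le_max_left _ _) (not_le.2 h3)

lemma no_isol (y : Xf ff) : ¬ IsOpen {y} := by
  intro hy
  obtain ⟨n, hn⟩ := (dense_orb ff).exists_mem_open hy ⟨y, rfl⟩
  have h1 : IsOpen ((TT ff ^ n) ⁻¹' {y}) := hy.preimage (TT ff ^ n).continuous
  have h2 := yy_tend1 0
  rw [zpow_zero, Homeomorph.one_apply] at h2
  obtain ⟨m, hm⟩ := (h2.eventually (h1.mem_nhds hn)).exists
  exact yy_ne m ((TT ff ^ n).injective (hm.trans (Set.mem_singleton_iff.1 hn).symm))

lemma core2 {𝕜 : Type*} [RCLike 𝕜] {H : Type*} [NormedAddCommGroup H] [InnerProductSpace 𝕜 H]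
    [CompleteSpace H] {V : ℤ → H →L[𝕜] H} (h : Rep V) (v w : H) (F : Xf ff → 𝕜) (hF : Continuous F)
    (h0 : ∀ n, F ((TT ff ^ n) (x0 ff)) = inner 𝕜 w (V n v)) (y : Xf ff) : F y = F (x0 ff) := by
  have h1 : ∀ n : ℤ, F ((TT ff ^ (n + 1)) (x0 ff)) = F ((TT ff ^ n) (x0 ff)) := by
    intro n
    refine tendsto_nhds_unique ((hF.tendsto _).comp (yy_tend1 (n + 1))) ?_
    refine ((hF.tendsto _).comp (yy_tend1 n)).congr (fun m => ?_)
    obtain ⟨k, hk⟩ := yy_nil m
    exact (core h v w (fun j => dd (Nat.pair m j)) (fun k n => F (yy m k n))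
      (fun n => by rw [yy_zero, h0]) (fun k n => (hF.tendsto _).comp (yy_tend m k n)) k
      (fun n => congrArg F (Subtype.ext (by rw [hk, hk]))) n).symm
  have h2 : ∀ n : ℤ, F ((TT ff ^ n) (x0 ff)) = F (x0 ff) := by
    intro n
    induction n using Int.induction_on with
    | zero => simp
    | succ n ih => rw [h1, ih]
    | pred n ih => rw [← h1, sub_add_cancel, ih]
  exact (dense_orb ff).induction_on y (isClosed_eq hF continuous_const) h2

lemma zpow_map {X : Type*} [TopologicalSpace X] {𝕜 : Type*} [RCLike 𝕜] {H : Type*}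
    [NormedAddCommGroup H] [InnerProductSpace 𝕜 H] (T : X ≃ₜ X) (U : H ≃ₗᵢ[𝕜] H) (β : X → H)
    (h : ∀ x, β (T x) = U (β x)) (n : ℤ) (x : X) : β ((T ^ n) x) = (U ^ n) (β x) := by
  induction n using Int.induction_on generalizing x with
  | zero => simp
  | succ n ih => rw [zpow_add_one, zpow_add_one, Homeomorph.mul_apply, ih, h]; rfl
  | pred n ih =>
    rw [zpow_sub_one, zpow_sub_one, Homeomorph.mul_apply, ih]
    change _ = (U ^ (-n : ℤ)) (U.symm (β x))
    congr 1
    apply U.injective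
    rw [← h]; simp

lemma zpow_map' {X Y : Type*} [TopologicalSpace X] [TopologicalSpace Y] (T : X ≃ₜ X) (S : Y ≃ₜ Y)
    (β : X → Y) (h : ∀ x, β (T x) = S (β x)) (n : ℤ) (x : X) : β ((T ^ n) x) = (S ^ n) (β x) := by
  induction n using Int.induction_on generalizing x with
  | zero => simp
  | succ n ih => rw [zpow_add_one, zpow_add_one, Homeomorph.mul_apply, ih, h]; rfl
  | pred n ih =>
    rw [zpow_sub_one, zpow_sub_one, Homeomorph.mul_apply, ih, Homeomorph.mul_apply]
    congr 1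
    apply S.injective
    rw [← h]; simp

lemma core3 {𝕜 : Type*} [RCLike 𝕜] {H : Type*} [NormedAddCommGroup H] [InnerProductSpace 𝕜 H]
    [CompleteSpace H] (U : H ≃ₗᵢ[𝕜] H) (β : Xf ff → H)
    (hβ : ∀ w, Continuous (fun y => inner 𝕜 w (β y))) (h : ∀ y, β (TT ff y) = U (β y))
    (y : Xf ff) : β y = β (x0 ff) :=
  ext_inner_left 𝕜 (fun w => core2 (rep_zpow U) (β (x0 ff)) w _ (hβ w)
    (fun n => by rw [zpow_map _ U β h]; rfl) y)

lemma pi_mem (x : Xf cc) : (fun m => psi (x.1 m)) ∈ Xf ff := by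
  have hc : Continuous (fun (x : ℤ → ℂ) (m : ℤ) => psi (x m)) :=
    continuous_pi (fun m => psi_cont.comp (continuous_apply m))
  refine map_mem_closure hc x.2 ?_
  rintro g ⟨n, rfl⟩
  exact ⟨n, rfl⟩

lemma hilbert (F : C(Xf ff, ℂ)) (ε : ℝ) (hε : 0 < ε) :
    ∃ g ∈ Submodule.span ℂ PS, ∀ n : ℤ, ‖F ((TT ff ^ n) (x0 ff)) - g n‖ ≤ ε := by
  let S : StarSubalgebra ℂ C(Xf cc, ℂ) :=
    { carrier := {G | (fun n : ℤ => G ((TT cc ^ n) (x0 cc))) ∈ Submodule.span ℂ PS}
      mul_mem' := fun ha hb => span_mul ha hb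
      add_mem' := fun ha hb => (Submodule.span ℂ PS).add_mem ha hb
      algebraMap_mem' := fun c => by
        have := Submodule.smul_mem _ c (Submodule.subset_span (R := ℂ) PS_one)
        rw [Set.mem_ofPred_eq]
        convert this using 1
        funext n; simp
      star_mem' := fun ha => span_star ha }
  have hsep : S.SeparatesPoints := by
    intro x y hxy
    obtain ⟨m, hm⟩ : ∃ m, x.1 m ≠ y.1 m := by
      by_contra hh
      push Not at hh
      exact hxy (Subtype.ext (funext hh))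
    refine ⟨_, ⟨⟨fun z => z.1 m, (continuous_apply m).comp continuous_subtype_val⟩, ?_, rfl⟩, hm⟩
    have := span_shift cc_PS m
    change (fun n : ℤ => ((TT cc ^ n) (x0 cc)).1 m) ∈ Submodule.span ℂ PS
    simp only [TT_zpow]
    exact this
  have htop := ContinuousMap.starSubalgebra_topologicalClosure_eq_top_of_separatesPoints S hsep
  let π : C(Xf cc, Xf ff) := ⟨fun x => ⟨_, pi_mem x⟩, Continuous.subtype_mk
    (continuous_pi (fun m => psi_cont.comp ((continuous_apply m).comp continuous_subtype_val))) _⟩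
  have hmem : F.comp π ∈ closure (S : Set C(Xf cc, ℂ)) := by
    have : F.comp π ∈ S.topologicalClosure := by rw [htop]; trivial
    exact this
  obtain ⟨G, hG, hd⟩ := Metric.mem_closure_iff.1 hmem ε hε
  refine ⟨_, hG, fun n => ?_⟩
  have h1 : π ((TT cc ^ n) (x0 cc)) = (TT ff ^ n) (x0 ff) :=
    Subtype.ext (funext (fun m => by
      change psi (((TT cc ^ n) (x0 cc)).1 m) = _
      rw [TT_zpow, TT_zpow]; rfl))
  rw [← h1, ← dist_eq_norm]
  exact (ContinuousMap.dist_apply_le_dist (f := F.comp π) (g := G) _).trans hd.le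

end Pool.Agent.H.MP_7fb4a2_an
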