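import Pool.Agent.H.MP_7fb4a2_an.D

set_option autoImplicit false
open Filter Topology MeasureTheory

namespace Pool.Agent.H.MP_7fb4a2_an

section weak
variable {𝕜 : Type*} [RCLike 𝕜] {H : Type*} [NormedAddCommGroup H] [InnerProductSpace 𝕜 H]

lemma weak_inner (v : H) :
    Continuous (fun x : WeakSpace 𝕜 H => inner 𝕜 v ((toWeakSpace 𝕜 H).symm x)) :=
  WeakBilin.eval_continuous (topDualPairing 𝕜 H).flip (innerSL 𝕜 v)

lemma weak_cont [CompleteSpace H] {X : Type*} [TopologicalSpace X] (g : X → H)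
    (hg : ∀ v, Continuous (fun x => inner 𝕜 v (g x))) :
    Continuous (fun x => toWeakSpace 𝕜 H (g x)) := by
  refine WeakBilin.continuous_of_continuous_eval (topDualPairing 𝕜 H).flip (fun l => ?_)
  have := hg ((InnerProductSpace.toDual 𝕜 H).symm l)
  simp only [InnerProductSpace.toDual_symm_apply] at this
  exact this

def WB (𝕜 : Type*) [RCLike 𝕜] (H : Type*) [NormedAddCommGroup H] [InnerProductSpace 𝕜 H] :
    Set (WeakSpace 𝕜 H) := {x | ‖(toWeakSpace 𝕜 H).symm x‖ ≤ 1}

instance [CompleteSpace H] : CompactSpace (WB 𝕜 H) := by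
  refine isCompact_iff_compactSpace.1 ?_
  have h := WeakDual.isCompact_closedBall (𝕜 := 𝕜) (E := H) 0 1
  have hc : Continuous (fun l : WeakDual 𝕜 H =>
      toWeakSpace 𝕜 H ((InnerProductSpace.toDual 𝕜 H).symm (WeakDual.toStrongDual l))) := by
    refine weak_cont _ (fun v => ?_)
    simp only [← inner_conj_symm v, InnerProductSpace.toDual_symm_apply]
    exact RCLike.continuous_conj.comp (WeakDual.eval_continuous v)
  convert h.image hc using 1
  ext x
  constructor
  · intro hx
    refine ⟨StrongDual.toWeakDual (InnerProductSpace.toDual 𝕜 H ((toWeakSpace 𝕜 H).symm x)), ?_, by simp⟩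
    simpa [WB] using hx
  · rintro ⟨l, hl, rfl⟩
    simpa [WB] using hl

noncomputable def WU [CompleteSpace H] (U : H ≃ₗᵢ[𝕜] H) : WB 𝕜 H ≃ₜ WB 𝕜 H where
  toFun x := ⟨toWeakSpace 𝕜 H (U ((toWeakSpace 𝕜 H).symm x.1)), by
    have : ‖(toWeakSpace 𝕜 H).symm x.1‖ ≤ 1 := x.2
    simpa [WB] using this⟩
  invFun x := ⟨toWeakSpace 𝕜 H (U.symm ((toWeakSpace 𝕜 H).symm x.1)), by
    have : ‖(toWeakSpace 𝕜 H).symm x.1‖ ≤ 1 := x.2
    simpa [WB] using this⟩
  left_inv x := by simp
  right_inv x := by simp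
  continuous_toFun := by
    refine Continuous.subtype_mk (weak_cont _ (fun v => ?_)) _
    simp only [← U.symm.inner_map_map v, LinearIsometryEquiv.symm_apply_apply]
    exact (weak_inner _).comp continuous_subtype_val
  continuous_invFun := by
    refine Continuous.subtype_mk (weak_cont _ (fun v => ?_)) _
    simp only [← U.inner_map_map v, LinearIsometryEquiv.apply_symm_apply]
    exact (weak_inner _).comp continuous_subtype_val

lemma WB_metr [CompleteSpace H] [TopologicalSpace.SeparableSpace H] :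
    TopologicalSpace.MetrizableSpace (WB 𝕜 H) := by
  have hd := TopologicalSpace.denseRange_denseSeq H
  let g : WB 𝕜 H → ℕ → 𝕜 := fun x k =>
    inner 𝕜 (TopologicalSpace.denseSeq H k) ((toWeakSpace 𝕜 H).symm x.1)
  have hc : Continuous g := continuous_pi (fun k => (weak_inner _).comp continuous_subtype_val)
  have hi : Function.Injective g := by
    intro x y hxy
    refine Subtype.ext ((toWeakSpace 𝕜 H).symm.injective (ext_inner_left 𝕜 (fun v => ?_)))
    exact hd.induction_on v (isClosed_eq (by fun_prop) (by fun_prop)) (fun k => congrFun hxy k)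
  exact (hc.isClosedEmbedding hi).isEmbedding.metrizableSpace

end weak

noncomputable abbrev H0 := Lp ℂ 2 mu0

lemma sep {X : Type} [MeasurableSpace X] (μ : Measure X)
    (h : MeasurableSpace.CountablyGenerated X) (h2 : SFinite μ) : IsSeparable μ := inferInstance

instance : TopologicalSpace.MetrizableSpace (WB ℂ H0) := by
  have : Fact ((2 : ENNReal) ≠ ⊤) := ⟨by simp⟩
  have := sep mu0 inferInstance inferInstance
  exact WB_metr

noncomputable def xi0 : WB ℂ H0 := ⟨toWeakSpace ℂ H0 (xi mu0), by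
  have := xi_inner mu0 0
  rw [← cc_eq, cc_zero, zpow_zero, LinearIsometryEquiv.coe_one, id, inner_self_eq_norm_sq_to_K] at this
  have h2 : ‖xi mu0‖ ^ 2 = 1 := by simpa using congrArg norm this
  change ‖xi mu0‖ ≤ 1
  nlinarith [norm_nonneg (xi mu0)]⟩

noncomputable def FF (x : WB ℂ H0) : ℝ := psi (inner ℂ (xi mu0) ((toWeakSpace ℂ H0).symm x.1))

lemma FF_cont : Continuous FF := psi_cont.comp ((weak_inner _).comp continuous_subtype_val)

lemma FF_orb (n : ℤ) : FF ((WU (UU mu0) ^ n) xi0) = ff n := by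
  have := zpow_map (WU (UU mu0)) (UU mu0) (fun x => (toWeakSpace ℂ H0).symm x.1) (fun x => rfl) n xi0
  rw [FF, this, ff, cc_eq, ← xi_inner]; rfl

noncomputable def pp (x : WB ℂ H0) (m : ℤ) : ℝ := FF ((WU (UU mu0) ^ m) x)

lemma pp_cont : Continuous pp := continuous_pi (fun _ => FF_cont.comp (Homeomorph.continuous _))

lemma pp_sh (x : WB ℂ H0) : pp (WU (UU mu0) x) = sh (pp x) := by
  funext m
  change FF _ = FF _
  rw [zpow_add_one]; rfl

lemma pp_mem (g : ℤ → ℝ) : g ∈ Set.range pp ↔ sh g ∈ Set.range pp := by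
  constructor
  · rintro ⟨x, rfl⟩; exact ⟨_, pp_sh x⟩
  · rintro ⟨x, hx⟩
    refine ⟨(WU (UU mu0)).symm x, sh.injective ?_⟩
    rw [← pp_sh, ← hx]; simp

lemma Xf_sub : Xf ff ⊆ Set.range pp := by
  refine closure_minimal ?_ (isCompact_range pp_cont).isClosed
  rintro g ⟨n, rfl⟩
  refine ⟨(WU (UU mu0) ^ n) xi0, funext (fun m => ?_)⟩
  rw [pp, ← Homeomorph.mul_apply, ← zpow_add, FF_orb]

end Pool.Agent.H.MP_7fb4a2_an
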