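import Pool.Agent.H.MP_7fb4a2_an.E

set_option autoImplicit false
open Filter Topology MeasureTheory

namespace Pool.Agent.H.MP_7fb4a2_an

lemma exL {X : Type*} [TopologicalSpace X] [CompactSpace X] (u : Ultrafilter ℕ) (g : ℕ → X) :
    ∃ p, Tendsto g u (𝓝 p) := by
  obtain ⟨p, -, hp⟩ := isCompact_univ.ultrafilter_le_nhds (u.map g) (by simp)
  exact ⟨p, hp⟩

lemma closed_norm {X : Type*} [TopologicalSpace X] {H : Type*} [NormedAddCommGroup H]
    [InnerProductSpace ℂ H] (α : X → H) (hα : ∀ w, Continuous (fun x => inner ℂ w (α x))) (r : ℝ)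
    (hr : 0 ≤ r) : IsClosed {x | ‖α x‖ ≤ r} := by
  have : {x | ‖α x‖ ≤ r} = ⋂ w : H, {x | ‖inner ℂ w (α x)‖ ≤ ‖w‖ * r} := by
    ext x
    simp only [Set.mem_iInter, Set.mem_ofPred_eq]
    constructor
    · intro h w; exact (norm_inner_le_norm _ _).trans (by gcongr)
    · intro h
      have h1 := h (α x)
      rw [inner_self_eq_norm_sq_to_K] at h1
      simp only [norm_pow, norm_algebraMap', norm_norm] at h1
      by_contra hh
      push Not at hh
      nlinarith
  rw [this]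
  exact isClosed_iInter (fun w => isClosed_le (hα w).norm continuous_const)

lemma recur {X : Type*} [TopologicalSpace X] [CompactSpace X] [T2Space X] (K : Subgroup (X ≃ₜ X))
    (hK : IsCompact ((fun k : X ≃ₜ X => (k : C(X, X))) '' K)) (κ : X ≃ₜ X) (hκ : κ ∈ K) (z : X) :
    z ∈ closure {x | ∃ l : ℕ, x = (κ ^ (l + 1)) z} := by
  have hu : (hyperfilter ℕ : Filter ℕ) ≤ atTop := by
    rw [← Nat.cofinite_eq_atTop]; exact hyperfilter_le_cofinite
  obtain ⟨p, hp⟩ := exL (hyperfilter ℕ) (fun i => (κ ^ i) z)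
  obtain ⟨ρ, -, hρ⟩ := hK.ultrafilter_le_nhds
    ((hyperfilter ℕ).map (fun i : ℕ => (((κ ^ i)⁻¹ : X ≃ₜ X) : C(X, X))))
    (by
      rw [le_principal_iff]
      exact mem_map.2 (univ_mem' (fun i => ⟨_, K.inv_mem (K.pow_mem hκ i), rfl⟩)))
  have hρ' : Tendsto (fun i : ℕ => (((κ ^ i)⁻¹ : X ≃ₜ X) : C(X, X))) (hyperfilter ℕ) (𝓝 ρ) := hρ
  have h1 : ρ p = z := by
    refine tendsto_nhds_unique (hρ'.eval hp) ?_
    simp
  refine isClosed_closure.mem_of_tendsto (h1 ▸ hρ'.eval_const p) (Eventually.of_forall (fun i => ?_))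
  refine mem_closure_of_tendsto ((((κ ^ i)⁻¹ : X ≃ₜ X).continuous.tendsto p).comp hp) ?_
  filter_upwards [hu (eventually_gt_atTop i)] with j hj
  obtain ⟨l, rfl⟩ := Nat.exists_eq_add_of_lt hj
  refine ⟨l, ?_⟩
  rw [Function.comp, ← Homeomorph.mul_apply, add_assoc, pow_add, inv_mul_cancel_left]

lemma no_group {X : Type*} [TopologicalSpace X] [CompactSpace X] [T2Space X] (S : X ≃ₜ X)
    {H : Type*} [NormedAddCommGroup H] [InnerProductSpace ℂ H] [CompleteSpace H] (U : H ≃ₗᵢ[ℂ] H)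
    (α : X → H) (hi : Function.Injective α) (hα : ∀ w, Continuous (fun x => inner ℂ w (α x)))
    (he : ∀ x, α (S x) = U (α x)) (K : Subgroup (X ≃ₜ X))
    (hK : IsCompact ((fun k : X ≃ₜ X => (k : C(X, X))) '' K)) (hc : ∀ k ∈ K, ∀ x, k (S x) = S (k x))
    (π : X → Xf ff) (hπ : Continuous π) (hs : Function.Surjective π) (hπe : ∀ x, π (S x) = TT ff (π x))
    (hf : ∀ x x', π x = π x' → ∃ k ∈ K, k x = x') : False := by
  have hu : (hyperfilter ℕ : Filter ℕ) ≤ atTop := by
    rw [← Nat.cofinite_eq_atTop]; exact hyperfilter_le_cofinite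
  obtain ⟨m, hm⟩ : ∃ m, (yy m 1 0).1 0 ≠ 0 := by
    have h1 := (((continuous_apply (0:ℤ)).comp continuous_subtype_val).tendsto _).comp (yy_tend1 0)
    refine (h1.eventually_ne ?_).exists
    simp [x0, ff, psi, cc_zero]; norm_num
  obtain ⟨k, hk⟩ := yy_nil m
  have hR := rep_zpow U
  set d : ℕ → ℤ := fun j => dd (Nat.pair m j) with hd
  obtain ⟨T, hT⟩ := hR.exLim (hyperfilter ℕ) d
  have hL : ∀ (d : ℕ → ℤ) (T : H →L[ℂ] H), IsLim (fun n : ℤ => ((U ^ n).toContinuousLinearEquiv : H →L[ℂ] H))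
      (hyperfilter ℕ) d T → ∃ L : X → X, (∀ x, Tendsto (fun j => (S ^ d j) x) (hyperfilter ℕ) (𝓝 (L x))) ∧
      (∀ x, α (L x) = T (α x)) ∧ (∀ x, (π x).1 = 0 → (π (L x)).1 = 0) := by
    intro d T hT
    choose L hL using fun x => exL (hyperfilter ℕ) (fun j => (S ^ d j) x)
    refine ⟨L, hL, fun x => ext_inner_left ℂ (fun w => ?_), fun x hx => ?_⟩
    · refine tendsto_nhds_unique (((hα w).tendsto _).comp (hL x)) ((hT w (α x)).congr (fun j => ?_))
      simp only [Function.comp, zpow_map S U α he]; rfl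
    · refine tendsto_nhds_unique (((continuous_subtype_val.comp hπ).tendsto _).comp (hL x)) ?_
      refine tendsto_const_nhds.congr (fun j => funext (fun i => ?_))
      simp only [Function.comp, zpow_map' S _ π hπe, TT_zpow, hx]; rfl
  obtain ⟨L, L1, L2, L3⟩ := hL d T hT
  obtain ⟨M, -, M2, M3⟩ := hL _ _ (hT.adj hR)
  set A := ContinuousLinearMap.adjoint T with hA
  obtain ⟨x, hx⟩ := hs (x0 ff)
  have hLk : ∀ i, π (L^[i] x) = yy m i 0 := by
    intro i
    induction i with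
    | zero => rw [yy_zero]; simpa using hx
    | succ i ih =>
      rw [Function.iterate_succ_apply']
      refine tendsto_nhds_unique ((hπ.tendsto _).comp (L1 _))
        (((yy_tend m i 0).mono_left hu).congr (fun j => ?_))
      simp only [Function.comp, zpow_map' S _ π hπe, ih, yy_zpow, hd]
  have it : ∀ (L : X → X) (T : H →L[ℂ] H), (∀ x, α (L x) = T (α x)) → ∀ i x, α (L^[i] x) = (T ^ i) (α x) := by
    intro L T h i
    induction i with
    | zero => simp
    | succ i ih => intro x; rw [Function.iterate_succ_apply', h, ih, pow_succ', mul_apply_eq_comp]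
  set z := L^[k] x with hz
  have hz0 : (π z).1 = 0 := by rw [hz, hLk, hk]
  obtain ⟨κ, hκ, hκz⟩ := hf z (L z) (Subtype.ext (by rw [hz0, L3 z hz0]))
  have hcm : ∀ y, L (κ y) = κ (L y) := fun y =>
    tendsto_nhds_unique (L1 _) (((κ.continuous.tendsto _).comp (L1 y)).congr (fun j =>
      zpow_map' S S κ (hc κ hκ) _ _))
  have hn : ‖α z‖ ≤ ‖T (α z)‖ := by
    refine (closed_norm α hα _ (norm_nonneg _)).closure_subset_iff.2 ?_ (recur K hK κ hκ z)
    rintro _ ⟨l, rfl⟩
    have h1 : ∀ l : ℕ, (κ ^ (l + 1)) z = L ((κ ^ l) z) := by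
      intro l
      induction l with
      | zero => simp [hκz]
      | succ l ih => rw [pow_succ', Homeomorph.mul_apply, ih, ← hcm, ← ih, pow_succ', Homeomorph.mul_apply]
    induction l with
    | zero => simp [hκz, L2]
    | succ l ih =>
      rw [Set.mem_ofPred_eq, h1, L2]
      exact (hT.norm hR _).trans ih
  have h2 : T (A (α z)) = α z := by
    rw [hT.comm2 hR (hT.adj hR), ← sub_eq_zero, ← norm_eq_zero, ← sq_eq_zero_iff (a := ‖_‖)]
    refine le_antisymm ?_ (sq_nonneg _)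
    rw [@norm_sub_sq ℂ, ContinuousLinearMap.adjoint_inner_left, inner_self_eq_norm_sq]
    have h3 := (hT.adj hR).norm hR (T (α z))
    have h4 := hT.norm hR (α z)
    have h5 : ‖T (α z)‖ = ‖α z‖ := le_antisymm h4 hn
    rw [h5] at h3 ⊢
    nlinarith [norm_nonneg (A (T (α z)))]
  have h3 : (T ^ k) ((A ^ k) (α z)) = α z := by
    have hcomm : Commute T A := ContinuousLinearMap.ext (fun y => hT.comm2 hR (hT.adj hR) y)
    rw [← mul_apply_eq_comp, ← hcomm.mul_pow]
    generalize k = i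
    induction i with
    | zero => simp
    | succ i ih => rw [pow_succ, mul_apply_eq_comp, mul_apply_eq_comp, h2, ih]
  have h4 := hT.nil hR k (α x - (A ^ k) (α z)) (by rw [map_sub, h3, ← it L T L2, sub_self])
  rw [map_sub, sub_eq_zero, ← it M A M2, ← L2, ← L2] at h4
  have h5 : ∀ i, (π (M^[i] z)).1 = 0 := by
    intro i
    induction i with
    | zero => exact hz0
    | succ i ih => rw [Function.iterate_succ_apply']; exact M3 _ ih
  have h6 := L3 _ (h5 k)
  rw [← hi h4, show L x = L^[1] x from rfl, hLk] at h6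
  exact hm (congrFun h6 0)

lemma common (s : ℕ → ℤ → ℂ) (hs : ∀ j, s j ∈ PS) : ∃ (μ : Measure UnitAddCircle) (_ : IsFiniteMeasure μ),
    ∀ g ∈ Submodule.span ℂ (Set.range s), ∃ w, ∀ n : ℤ, g n = inner ℂ w ((UU μ ^ n) (xi μ)) := by
  choose μ hμ hsμ using hs
  let c : ℕ → NNReal := fun j => (1 / 2) ^ j / (measureUnivNNReal (μ j) + 1)
  have c0 : ∀ j, c j ≠ 0 := fun j => by positivity
  let ν : Measure UnitAddCircle := Measure.sum (fun j => c j • μ j)
  have hν : IsFiniteMeasure ν := by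
    refine ⟨?_⟩
    rw [Measure.sum_apply _ MeasurableSet.univ]
    refine lt_of_le_of_lt (ENNReal.tsum_le_tsum (g := fun j => (((1 / 2 : NNReal) ^ j : NNReal) : ENNReal))
      (fun j => ?_)) ?_
    · rw [Measure.smul_apply, ← coe_measureUnivNNReal, ENNReal.smul_def, smul_eq_mul, ← ENNReal.coe_mul,
        ENNReal.coe_le_coe, div_mul_eq_mul_div, div_le_iff₀ (by positivity)]
      gcongr; exact le_self_add
    · exact lt_top_iff_ne_top.2 (ENNReal.tsum_coe_ne_top_iff_summable.2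
        (NNReal.summable_geometric (by norm_num)))
  refine ⟨ν, hν, fun g hg => ?_⟩
  induction hg using Submodule.span_induction with
  | zero => exact ⟨0, by simp⟩
  | add a b _ _ ha hb =>
    obtain ⟨w, hw⟩ := ha
    obtain ⟨w', hw'⟩ := hb
    exact ⟨w + w', fun n => by simp [hw, hw', inner_add_left]⟩
  | smul a b _ hb =>
    obtain ⟨w, hw⟩ := hb
    exact ⟨(starRingEnd ℂ a) • w, fun n => by simp [hw, inner_smul_left]⟩
  | mem g hg =>
    obtain ⟨j, rfl⟩ := hg
    have := hμ j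
    have hle : c j • μ j ≤ ν := Measure.le_sum (fun j => c j • μ j) j
    have h1 := Measure.rnDeriv_le_one_of_le hle
    have hm : MemLp (fun x => (((c j : ℝ)⁻¹ * (((c j • μ j).rnDeriv ν x).toReal) : ℝ) : ℂ)) 2 ν := by
      refine MemLp.of_bound (Measurable.aestronglyMeasurable (by fun_prop)) ((c j : ℝ)⁻¹) ?_
      filter_upwards [h1] with x hx
      rw [Complex.norm_real, Real.norm_eq_abs, abs_of_nonneg (by positivity)]
      exact mul_le_of_le_one_right (by positivity) (ENNReal.toReal_le_of_le_ofReal zero_le_one (by simpa using hx))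
    refine ⟨hm.toLp _, fun n => ?_⟩
    have hfin : IsFiniteMeasure (c j • μ j) := isFiniteMeasure_of_le ν hle
    have hld : (c j • μ j).HaveLebesgueDecomposition ν :=
      @Measure.haveLebesgueDecomposition_of_sigmaFinite _ _ _ _ inferInstance inferInstance
    have h2 := integral_rnDeriv_smul (μ := c j • μ j) (ν := ν) (f := fun t => fourier n t)
      (Measure.absolutelyContinuous_of_le hle)
    rw [integral_smul_nnreal_measure] at h2
    have h3 : s j n = ∫ x, (c j : ℝ)⁻¹ • (((c j • μ j).rnDeriv ν x).toReal • fourier n x) ∂ν := by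
      rw [integral_smul, h2, hsμ, NNReal.smul_def, smul_smul, inv_mul_cancel₀ (by exact_mod_cast c0 j), one_smul]
    rw [h3, UU_zpow, L2.inner_def]
    refine integral_congr_ae ?_
    have h : xi ν =ᵐ[ν] fun _ => (1:ℂ) := MemLp.coeFn_toLp _
    filter_upwards [MM_coe ν n (xi ν), h, hm.coeFn_toLp] with x h1 h2 h4
    rw [h1, h2, h4]
    simp; ring

lemma star_prop {Y : Type*} [TopologicalSpace Y] [CompactSpace Y] [TopologicalSpace.MetrizableSpace Y]
    (o : ℤ → Y)
    (h : ∀ F : C(Y, ℂ), ∀ ε : ℝ, 0 < ε → ∃ g ∈ Submodule.span ℂ PS, ∀ n : ℤ, ‖F (o n) - g n‖ ≤ ε) :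
    ∃ (μ : Measure UnitAddCircle) (_ : IsFiniteMeasure μ), ∀ F : C(Y, ℂ), ∀ ε : ℝ, 0 < ε →
      ∃ w, ∀ n : ℤ, ‖F (o n) - inner ℂ w ((UU μ ^ n) (xi μ))‖ ≤ ε := by
  let _ : MetricSpace Y := TopologicalSpace.metrizableSpaceMetric Y
  have hd := TopologicalSpace.denseRange_denseSeq C(Y, ℂ)
  choose g hg hg2 using fun p : ℕ × ℕ => h (TopologicalSpace.denseSeq C(Y, ℂ) p.1) (1 / (p.2 + 1 : ℝ))
    (by positivity)
  choose t ht ht2 using fun p => Submodule.mem_span_finite_of_mem_span (hg p)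
  have hc : (insert 1 (⋃ p, (t p : Set (ℤ → ℂ)))).Countable :=
    (Set.countable_iUnion (fun p => (t p).countable_toSet)).insert _
  obtain ⟨s, hs⟩ := hc.exists_eq_range ⟨1, Set.mem_insert _ _⟩
  obtain ⟨μ, hμ, hw⟩ := common s (fun j => by
    have : s j ∈ insert 1 (⋃ p, (t p : Set (ℤ → ℂ))) := hs ▸ ⟨j, rfl⟩
    rcases this with h | h
    · rw [h]; exact PS_one
    · obtain ⟨p, hp⟩ := Set.mem_iUnion.1 h
      exact ht p hp)
  refine ⟨μ, hμ, fun F ε hε => ?_⟩
  obtain ⟨k, hk⟩ := hd.exists_dist_lt F (half_pos hε)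
  obtain ⟨i, hi⟩ := exists_nat_one_div_lt (half_pos hε)
  obtain ⟨w, hw⟩ := hw (g (k, i)) (Submodule.span_mono (by
    rw [← hs]; exact (Set.subset_iUnion (fun p => (t p : Set (ℤ → ℂ))) (k, i)).trans (Set.subset_insert _ _)) (ht2 _))
  refine ⟨w, fun n => ?_⟩
  have h1 := hg2 (k, i) n
  have h2 := (ContinuousMap.dist_apply_le_dist (o n)).trans hk.le
  rw [← hw, ← dist_eq_norm] at *
  have := dist_triangle (F (o n)) (TopologicalSpace.denseSeq C(Y, ℂ) k (o n)) (g (k, i) n)
  simp only at h1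
  linarith

end Pool.Agent.H.MP_7fb4a2_an
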