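import Pool.Agent.H.MP_7fb4a2_an.F

set_option autoImplicit false
open Filter Topology MeasureTheory

namespace Pool.Agent.H.MP_7fb4a2_an

lemma orb_inv {Z : Type*} [TopologicalSpace Z] (R : Z ≃ₜ Z) (p x : Z) :
    x ∈ closure (Set.range (fun n : ℤ => (R ^ n) p)) ↔
      R x ∈ closure (Set.range (fun n : ℤ => (R ^ n) p)) := by
  rw [← Set.mem_preimage (f := R), R.preimage_closure]
  have : R ⁻¹' (Set.range (fun n : ℤ => (R ^ n) p)) = Set.range (fun n : ℤ => (R ^ n) p) := by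
    ext y
    constructor
    · rintro ⟨n, hn⟩
      refine ⟨-1 + n, R.injective ?_⟩
      simp only at hn ⊢
      rw [← hn, ← Homeomorph.mul_apply, ← zpow_one_add]; simp
    · rintro ⟨n, rfl⟩
      exact ⟨1 + n, by simp only; rw [zpow_one_add]; rfl⟩
  rw [this]

lemma gdelta {X Y : Type*} [TopologicalSpace X] [CompactSpace X] [TopologicalSpace.MetrizableSpace X]
    [TopologicalSpace Y] [T2Space Y] (π : X → Y) (hπ : Continuous π) :
    IsGδ {x | π ⁻¹' {π x} = {x}} := by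
  let _ : MetricSpace X := TopologicalSpace.metrizableSpaceMetric X
  have : {x | π ⁻¹' {π x} = {x}} = ⋂ k : ℕ,
      (Prod.fst '' {p : X × X | π p.2 = π p.1 ∧ 1 / (k + 1 : ℝ) ≤ dist p.1 p.2})ᶜ := by
    ext x
    simp only [Set.mem_iInter, Set.mem_ofPred_eq, Set.mem_compl_iff]
    constructor
    · rintro h k ⟨⟨a, b⟩, ⟨h1, h2⟩, rfl⟩
      have : b ∈ π ⁻¹' {π a} := h1
      rw [h, Set.mem_singleton_iff] at this
      simp only [this, dist_self] at h2
      exact absurd h2 (not_le.2 (by positivity))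
    · intro h
      refine Set.eq_singleton_iff_unique_mem.2 ⟨rfl, fun b hb => ?_⟩
      by_contra hne
      obtain ⟨k, hk⟩ := exists_nat_one_div_lt (dist_pos.2 (Ne.symm hne))
      exact h k ⟨(x, b), ⟨hb, hk.le⟩, rfl⟩
  rw [this]
  refine IsGδ.iInter (fun k => IsOpen.isGδ (IsClosed.isOpen_compl (self := ?_)))
  refine (IsCompact.image (IsClosed.isCompact ?_) continuous_fst).isClosed
  exact (isClosed_eq (hπ.comp continuous_snd) (hπ.comp continuous_fst)).inter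
    (isClosed_le continuous_const (continuous_fst.dist continuous_snd))

lemma minnorm {H : Type*} [NormedAddCommGroup H] [InnerProductSpace ℂ H] [CompleteSpace H]
    (C : Set H) (hc : IsClosed C) (hv : Convex ℝ C) (ξ : H) (hξ : ξ ∈ C) :
    ∃ e ∈ C, ‖e‖ ≤ ‖ξ‖ ∧ ∀ z ∈ C, ‖z‖ ≤ ‖e‖ → z = e := by
  let _ : InnerProductSpace ℝ H := InnerProductSpace.rclikeToReal ℂ H
  obtain ⟨e, he, h⟩ := exists_norm_eq_iInf_of_complete_convex ⟨ξ, hξ⟩ hc.isComplete hv 0
  have hm : ∀ z ∈ C, ‖e‖ ≤ ‖z‖ := by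
    intro z hz
    have := ciInf_le (f := fun w : C => ‖(0:H) - w‖) ⟨0, by rintro _ ⟨w, rfl⟩; exact norm_nonneg _⟩ ⟨z, hz⟩
    rw [← h] at this
    simpa using this
  refine ⟨e, he, hm ξ hξ, fun z hz hze => ?_⟩
  have h1 := hm _ (hv hz he (a := 1 / 2) (b := 1 / 2) (by norm_num) (by norm_num) (by norm_num))
  rw [← smul_add, norm_smul] at h1
  have h2 := parallelogram_law_with_norm ℝ z e
  rw [← sub_eq_zero, ← norm_eq_zero]
  simp only [one_div, norm_inv, Real.norm_ofNat] at h1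
  nlinarith [norm_nonneg (z - e), norm_nonneg z, norm_nonneg e, norm_nonneg (z + e)]

universe u

lemma almost0 {Y : Type u} [TopologicalSpace Y] [CompactSpace Y] [TopologicalSpace.MetrizableSpace Y]
    (T : Y ≃ₜ Y) (y0 : Y) (hd : DenseRange (fun n : ℤ => (T ^ n) y0))
    {H : Type} [NormedAddCommGroup H] [InnerProductSpace ℂ H] [CompleteSpace H]
    [TopologicalSpace.SeparableSpace H] (U : H ≃ₗᵢ[ℂ] H) (ξ0 : H)
    (hw0 : ∀ F : C(Y, ℂ), ∀ ε : ℝ, 0 < ε →
      ∃ w, ∀ n : ℤ, ‖F ((T ^ n) y0) - inner ℂ w ((U ^ n) ξ0)‖ ≤ ε) :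
    ∃ (X : Type u) (_ : TopologicalSpace X) (_ : CompactSpace X) (_ : TopologicalSpace.MetrizableSpace X)
      (S : X ≃ₜ X) (π : X → Y),
      (∃ (H : Type) (_ : NormedAddCommGroup H) (_ : InnerProductSpace ℂ H) (_ : CompleteSpace H)
        (U : H ≃ₗᵢ[ℂ] H) (α : X → H),
        Topology.IsEmbedding (fun x => toWeakSpace ℂ H (α x)) ∧ ∀ x, α (S x) = U (α x)) ∧
      Continuous π ∧ Function.Surjective π ∧ (∀ x, π (S x) = T (π x)) ∧
      ∃ X₀ : Set X, IsGδ X₀ ∧ Dense X₀ ∧ ∀ x ∈ X₀, π ⁻¹' {π x} = {x} := by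
  let _ : MetricSpace Y := TopologicalSpace.metrizableSpaceMetric Y
  have : TopologicalSpace.MetrizableSpace (WB ℂ H) := WB_metr
  set ξ : H := ((‖ξ0‖ + 1 : ℝ) : ℂ)⁻¹ • ξ0 with hξ
  have hp : 0 < ‖ξ0‖ + 1 := by positivity
  have hξ1 : ‖ξ‖ ≤ 1 := by
    rw [hξ, norm_smul, norm_inv, Complex.norm_real, Real.norm_eq_abs, abs_of_pos hp,
      inv_mul_le_one₀ hp]
    linarith
  have hw : ∀ F : C(Y, ℂ), ∀ ε : ℝ, 0 < ε →
      ∃ w, ∀ n : ℤ, ‖F ((T ^ n) y0) - inner ℂ w ((U ^ n) ξ)‖ ≤ ε := by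
    intro F ε hε
    obtain ⟨w, hw⟩ := hw0 F ε hε
    refine ⟨((‖ξ0‖ + 1 : ℝ) : ℂ) • w, fun n => ?_⟩
    rw [hξ, map_smul, inner_smul_left, inner_smul_right, Complex.conj_ofReal, ← mul_assoc,
      mul_inv_cancel₀ (by exact_mod_cast hp.ne'), one_mul]
    exact hw n
  let C : Set H := {x | ∀ (F : C(Y, ℂ)) (w : H) (ε : ℝ),
    (∀ n : ℤ, ‖F ((T ^ n) y0) - inner ℂ w ((U ^ n) ξ)‖ ≤ ε) →
    ∀ n : ℤ, ‖F ((T ^ n) y0) - inner ℂ w ((U ^ n) x)‖ ≤ ε}
  have hCc : IsClosed C := by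
    simp only [C, Set.ofPred_forall]
    refine isClosed_iInter (fun F => isClosed_iInter (fun w => isClosed_iInter (fun ε =>
      isClosed_iInter (fun _ => isClosed_iInter (fun n => isClosed_le (by fun_prop) continuous_const)))))
  have hCv : Convex ℝ C := by
    intro x hx y hy a b ha hb hab F w ε hε n
    have h1 := hx F w ε hε n
    have h2 := hy F w ε hε n
    have e : F ((T ^ n) y0) - inner ℂ w ((U ^ n) (a • x + b • y)) =
        a • (F ((T ^ n) y0) - inner ℂ w ((U ^ n) x)) + b • (F ((T ^ n) y0) - inner ℂ w ((U ^ n) y)) := by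
      have hab' : (a:ℂ) + b = 1 := by exact_mod_cast hab
      rw [← Complex.coe_smul a x, ← Complex.coe_smul b y, map_add, map_smul, map_smul, inner_add_right,
        inner_smul_right, inner_smul_right, Complex.real_smul, Complex.real_smul]
      linear_combination (-F ((T ^ n) y0)) * hab'
    rw [e]
    refine (norm_add_le _ _).trans ?_
    rw [norm_smul, norm_smul, Real.norm_eq_abs, Real.norm_eq_abs, abs_of_nonneg ha, abs_of_nonneg hb]
    calc _ ≤ a * ε + b * ε := by gcongr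
      _ = ε := by rw [← add_mul, hab, one_mul]
  obtain ⟨e, he, he1, hmin⟩ := minnorm C hCc hCv ξ (fun F w ε h => h)
  let p : WB ℂ H × Y := (⟨toWeakSpace ℂ H e, he1.trans hξ1⟩, y0)
  let R := (WU U).prodCongr T
  let a : WB ℂ H × Y → H := fun q => (toWeakSpace ℂ H).symm q.1.1
  have ac : ∀ w, Continuous (fun q => inner ℂ w (a q)) := fun w =>
    (weak_inner w).comp (continuous_subtype_val.comp continuous_fst)
  have aR : ∀ (n : ℤ) q, a ((R ^ n) q) = (U ^ n) (a q) := zpow_map R U a (fun q => rfl)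
  have sR : ∀ (n : ℤ) q, ((R ^ n) q).2 = (T ^ n) q.2 := zpow_map' R T Prod.snd (fun q => rfl)
  let Γ := closure (Set.range (fun n : ℤ => (R ^ n) p))
  have : CompactSpace Γ := isCompact_iff_compactSpace.1 isClosed_closure.isCompact
  let S : Γ ≃ₜ Γ := R.subtype (orb_inv R p)
  have vS : ∀ (n : ℤ) (q : Γ), ((S ^ n) q).1 = (R ^ n) q.1 := zpow_map' S R Subtype.val (fun q => rfl)
  have key : ∀ (F : C(Y, ℂ)) (w : H) (ε : ℝ),
      (∀ n : ℤ, ‖F ((T ^ n) y0) - inner ℂ w ((U ^ n) ξ)‖ ≤ ε) →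
      ∀ q ∈ Γ, ‖F q.2 - inner ℂ w (a q)‖ ≤ ε := by
    intro F w ε hε q hq
    refine (isClosed_le (f := fun q => ‖F q.2 - inner ℂ w (a q)‖)
      (((F.continuous.comp continuous_snd).sub (ac w)).norm) continuous_const).closure_subset_iff.2 ?_ hq
    rintro _ ⟨n, rfl⟩
    simp only [Set.mem_ofPred_eq, aR, sR]
    exact he F w ε hε n
  have inj : Function.Injective (fun q : Γ => toWeakSpace ℂ H (a q.1)) := by
    intro q q' hq
    have h1 : a q.1 = a q'.1 := (toWeakSpace ℂ H).injective hq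
    refine Subtype.ext (Prod.ext (Subtype.ext ((toWeakSpace ℂ H).symm.injective h1)) ?_)
    refine eq_of_forall_dist_le (fun ε hε => ?_)
    obtain ⟨w, hw⟩ := hw ⟨fun y => (dist y q'.1.2 : ℝ), by fun_prop⟩ _ (half_pos hε)
    have h2 := key _ w _ hw _ q.2
    have h3 := key _ w _ hw _ q'.2
    simp only [ContinuousMap.coe_mk, dist_self, Complex.ofReal_zero, zero_sub, norm_neg, h1] at h2 h3
    have h4 := norm_add_le ((dist q.1.2 q'.1.2 : ℂ) - inner ℂ w (a q'.1)) (inner ℂ w (a q'.1))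
    rw [sub_add_cancel, Complex.norm_real, Real.norm_eq_abs, abs_of_nonneg dist_nonneg] at h4
    linarith
  have hπ : Continuous (fun q : Γ => q.1.2) := continuous_snd.comp continuous_subtype_val
  let p' : Γ := ⟨p, subset_closure ⟨0, by simp⟩⟩
  have fib : ∀ q : Γ, q.1.2 = y0 → q = p' := by
    intro q hq
    refine inj (congrArg _ (hmin _ (fun F w ε hε n => ?_) ?_))
    · have := key F w ε hε _ ((S ^ n) q).2
      rwa [vS, aR, sR, hq] at this
    · refine (closed_norm a ac _ (norm_nonneg e)).closure_subset_iff.2 ?_ q.2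
      rintro _ ⟨n, rfl⟩
      simp only [Set.mem_ofPred_eq, aR, LinearIsometryEquiv.norm_map]
      exact le_rfl
  refine ⟨Γ, inferInstance, inferInstance, inferInstance, S, fun q => q.1.2,
    ⟨H, _, _, inferInstance, U, fun q => a q.1,
      ((weak_cont _ (fun w => (ac w).comp continuous_subtype_val)).isClosedEmbedding inj).isEmbedding,
      fun q => rfl⟩, hπ, fun y => ?_, fun q => rfl, _, gdelta _ hπ, fun q => ?_, fun q hq => hq⟩
  · refine hd.induction_on (p := fun y => y ∈ Set.range (fun q : Γ => q.1.2)) y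
      (isCompact_range hπ).isClosed (fun n => ⟨(S ^ n) p', ?_⟩)
    simp only [vS, sR]; rfl
  · rw [closure_subtype]
    refine closure_mono ?_ q.2
    rintro _ ⟨n, rfl⟩
    refine ⟨(S ^ n) p', Set.eq_singleton_iff_unique_mem.2 ⟨rfl, fun b hb => ?_⟩, vS _ _⟩
    have h1 : b.1.2 = (T ^ n) y0 := by
      have : b.1.2 = ((S ^ n) p').1.2 := hb
      rw [this, vS, sR]
    have h2 := fib ((S ^ (-n)) b) (by
      rw [vS, sR, h1, ← Homeomorph.mul_apply, ← zpow_add]; simp)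
    rw [← h2, ← Homeomorph.mul_apply, ← zpow_add]; simp

lemma almost {Y : Type u} [TopologicalSpace Y] [CompactSpace Y] [TopologicalSpace.MetrizableSpace Y]
    (T : Y ≃ₜ Y) (y0 : Y) (hd : DenseRange (fun n : ℤ => (T ^ n) y0))
    (h : ∀ F : C(Y, ℂ), ∀ ε : ℝ, 0 < ε → ∃ g ∈ Submodule.span ℂ PS, ∀ n : ℤ, ‖F ((T ^ n) y0) - g n‖ ≤ ε) :
    ∃ (X : Type u) (_ : TopologicalSpace X) (_ : CompactSpace X) (_ : TopologicalSpace.MetrizableSpace X)
      (S : X ≃ₜ X) (π : X → Y),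
      (∃ (H : Type) (_ : NormedAddCommGroup H) (_ : InnerProductSpace ℂ H) (_ : CompleteSpace H)
        (U : H ≃ₗᵢ[ℂ] H) (α : X → H),
        Topology.IsEmbedding (fun x => toWeakSpace ℂ H (α x)) ∧ ∀ x, α (S x) = U (α x)) ∧
      Continuous π ∧ Function.Surjective π ∧ (∀ x, π (S x) = T (π x)) ∧
      ∃ X₀ : Set X, IsGδ X₀ ∧ Dense X₀ ∧ ∀ x ∈ X₀, π ⁻¹' {π x} = {x} := by
  obtain ⟨μ, hμ, hw0⟩ := star_prop (fun n => (T ^ n) y0) h
  have : Fact ((2 : ENNReal) ≠ ⊤) := ⟨by simp⟩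
  have := sep μ inferInstance inferInstance
  exact almost0 T y0 hd (UU μ) (xi μ) hw0

end Pool.Agent.H.MP_7fb4a2_an
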